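import Pool.Agent.Y127.FftO

/-!
# The first fundamental theorem for the special orthogonal group

A multilinear form which is invariant under the Lie algebra of a nondegenerate symmetric form is a
combination of forms on which all similitudes act by scalars.
-/

set_option linter.unusedSectionVars false

open Finset Function

namespace Pool.Agent.Y127

open Pool.Agent.TH125.Nod

universe u v

variable {K : Type u} [Field K] {J : Type} [Fintype J] [DecidableEq J]
  {M : Type v} [AddCommGroup M] [Module K M]

/-- the action of a matrix on the forms -/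
def GA (g : Matrix J J K) {S : Type} [Fintype S] [DecidableEq S] (f : (S → J) → M) : (S → J) → M :=
  fun x => ∑ y : S → J, (∏ j, g (y j) (x j)) • f y

section
variable {S : Type} [Fintype S] [DecidableEq S] (g : Matrix J J K)

theorem GA_add (f f' : (S → J) → M) : GA g (f + f') = GA g f + GA g f' := by
  funext x
  simp only [GA, Pi.add_apply, smul_add, Finset.sum_add_distrib]

theorem GA_smul (c : K) (f : (S → J) → M) : GA g (c • f) = c • GA g f := by
  funext x
  simp only [GA, Pi.smul_apply, Finset.smul_sum]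
  exact Finset.sum_congr rfl fun y _ => smul_comm _ _ _

theorem GA_zero : GA g (0 : (S → J) → M) = 0 := by
  funext x
  simp only [GA, Pi.zero_apply, smul_zero, Finset.sum_const_zero]

theorem GA_tensor (F : (S → J) → K) (w : M) :
    GA g (fun x => F x • w) = fun x => GA g F x • w := by
  funext x
  simp only [GA, Finset.sum_smul, smul_smul, smul_eq_mul]

/-- permuting the variables -/
theorem GA_perm {S' : Type} [Fintype S'] [DecidableEq S'] (σ : S' ≃ S) (f : (S' → J) → M)
    (x : S → J) : GA g (fun y : S → J => f (fun j => y (σ j))) x = GA g f (fun j => x (σ j)) := by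
  unfold GA
  refine Fintype.sum_equiv (Equiv.arrowCongr σ.symm (Equiv.refl J)) _ _ fun y => ?_
  have h1 : (Equiv.arrowCongr σ.symm (Equiv.refl J)) y = fun j => y (σ j) := by
    funext j
    simp
  rw [h1, ← Equiv.prod_comp σ]

end

/-- similitudes -/
def Sim (Q g : Matrix J J K) (ν d : K) : Prop :=
  g.transpose * Q * g = (ν * ν) • Q ∧ g.det = d * ν ^ Fintype.card J

/-- the forms of type `k` -/
def Em (Q : Matrix J J K) (k : ℕ) (S : Type) [Fintype S] [DecidableEq S] : Set ((S → J) → K) :=
  {F | ∀ g ν d, Sim Q g ν d → GA g F = (d ^ k * ν ^ Fintype.card S) • F}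

/-- the vector-valued forms of type `k` -/
def EmM (K : Type u) [Field K] (M : Type v) [AddCommGroup M] [Module K M] (Q : Matrix J J K)
    (k : ℕ) (S : Type) [Fintype S] [DecidableEq S] : Submodule K ((S → J) → M) :=
  Submodule.span K {f | ∃ F ∈ Em Q k S, ∃ w : M, f = fun x => F x • w}

theorem EmM_GA {Q g : Matrix J J K} {ν d : K} (hg : Sim Q g ν d) {k : ℕ} {S : Type} [Fintype S]
    [DecidableEq S] {f : (S → J) → M} (hf : f ∈ EmM K M Q k S) :
    GA g f = (d ^ k * ν ^ Fintype.card S) • f := by
  unfold EmM at hf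
  induction hf using Submodule.span_induction with
  | mem f hf =>
    obtain ⟨F, hF, w, rfl⟩ := hf
    rw [GA_tensor, hF g ν d hg]
    funext x
    rw [Pi.smul_apply, Pi.smul_apply, smul_assoc]
  | zero => rw [GA_zero, smul_zero]
  | add f f' _ _ hf hf' => rw [GA_add, hf, hf', smul_add]
  | smul c f _ hf => rw [GA_smul, hf, smul_comm]

section
variable {S : Type} [Fintype S] [DecidableEq S]

theorem prod_split' {N : Type*} [CommMonoid N] {a b : S} (hab : a ≠ b) (F : S → N) :
    ∏ x, F x = F a * F b * ∏ x : {x // x ≠ a ∧ x ≠ b}, F x.1 := by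
  rw [← Finset.mul_prod_erase univ F (Finset.mem_univ a),
    ← Finset.mul_prod_erase (univ.erase a) F (Finset.mem_erase.2 ⟨Ne.symm hab, Finset.mem_univ b⟩),
    mul_assoc]
  congr 2
  rw [Finset.prod_subtype]
  intro x
  simp only [Finset.mem_erase, Finset.mem_univ, and_true]
  exact and_comm

/-- splitting off two variables -/
def splitE {a b : S} (hab : a ≠ b) : (S → J) ≃ J × J × ({x // x ≠ a ∧ x ≠ b} → J) where
  toFun y := (y a, y b, fun x => y x.1)
  invFun z := ext2 a b z.1 z.2.1 z.2.2
  left_inv y := by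
    funext x
    by_cases h : x ≠ a ∧ x ≠ b
    · exact ext2_val (y a) (y b) (fun x : {x // x ≠ a ∧ x ≠ b} => y x.1) ⟨x, h⟩
    · by_cases h1 : x = a
      · rw [h1]
        exact ext2_a _ _ _
      · have h2 : x = b := by
          by_contra h2
          exact h ⟨h1, h2⟩
        rw [h2]
        exact ext2_b hab _ _ _
  right_inv z := by
    refine Prod.ext (ext2_a _ _ _) (Prod.ext (ext2_b hab _ _ _) ?_)
    funext x
    exact ext2_val _ _ _ x

/-- the product with the form on two variables -/
theorem GA_mul {Q g : Matrix J J K} {ν d : K} (hg : Sim Q g ν d) {a b : S} (hab : a ≠ b)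
    (F : ({x // x ≠ a ∧ x ≠ b} → J) → K) :
    GA g (fun x : S → J => Q (x a) (x b) * F (fun y => x y.1)) =
      fun x => (ν * ν) * (Q (x a) (x b) * GA g F (fun y => x y.1)) := by
  funext x
  unfold GA
  rw [← (splitE (J := J) hab).symm.sum_comp, Fintype.sum_prod_type]
  have h1 : ∀ p : J, ∀ z : J × ({x // x ≠ a ∧ x ≠ b} → J),
      (∏ j, g ((splitE (J := J) hab).symm (p, z) j) (x j)) •
        (Q ((splitE (J := J) hab).symm (p, z) a) ((splitE (J := J) hab).symm (p, z) b) *
          F fun y => (splitE (J := J) hab).symm (p, z) y.1) =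
      (g p (x a) * Q p z.1 * g z.1 (x b)) * ((∏ j : {x // x ≠ a ∧ x ≠ b}, g (z.2 j) (x j.1)) * F z.2) := by
    intro p z
    change (∏ j, g (ext2 a b p z.1 z.2 j) (x j)) •
      (Q (ext2 a b p z.1 z.2 a) (ext2 a b p z.1 z.2 b) * F fun y => ext2 a b p z.1 z.2 y.1) = _
    rw [prod_split' hab, ext2_a, ext2_b hab, smul_eq_mul]
    have h2 : (fun y : {x // x ≠ a ∧ x ≠ b} => ext2 a b p z.1 z.2 y.1) = z.2 :=
      funext fun y => ext2_val _ _ _ y
    have h3 : ∏ y : {x // x ≠ a ∧ x ≠ b}, g (ext2 a b p z.1 z.2 y.1) (x y.1) =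
        ∏ y : {x // x ≠ a ∧ x ≠ b}, g (z.2 y) (x y.1) :=
      Finset.prod_congr rfl fun y _ => by rw [ext2_val]
    rw [h2, h3]
    ring
  simp only [h1]
  have h4 : ∀ p : J, ∑ z : J × ({x // x ≠ a ∧ x ≠ b} → J), (g p (x a) * Q p z.1 * g z.1 (x b)) *
      ((∏ j : {x // x ≠ a ∧ x ≠ b}, g (z.2 j) (x j.1)) * F z.2) =
      ∑ q, (g p (x a) * Q p q * g q (x b)) *
        ∑ y : {x // x ≠ a ∧ x ≠ b} → J, (∏ j, g (y j) (x j.1)) * F y := by
    intro p
    rw [Fintype.sum_prod_type]
    exact Finset.sum_congr rfl fun q _ => by rw [Finset.mul_sum]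
  simp only [h4]
  simp only [← Finset.sum_mul]
  have h5 : ∑ p, ∑ q, g p (x a) * Q p q * g q (x b) = (ν * ν) * Q (x a) (x b) := by
    have h6 := congrFun (congrFun hg.1 (x a)) (x b)
    rw [Matrix.smul_apply, smul_eq_mul] at h6
    rw [← h6, Matrix.mul_apply, Finset.sum_comm]
    refine Finset.sum_congr rfl fun q _ => ?_
    rw [Matrix.mul_apply, Finset.sum_mul]
    exact Finset.sum_congr rfl fun p _ => by rw [Matrix.transpose_apply]
  rw [h5]
  simp only [smul_eq_mul]
  ring

theorem Em_mul {Q : Matrix J J K} {k : ℕ} {a b : S} (hab : a ≠ b)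
    {F : ({x // x ≠ a ∧ x ≠ b} → J) → K} (hF : F ∈ Em Q k {x // x ≠ a ∧ x ≠ b}) :
    (fun x : S → J => Q (x a) (x b) * F (fun y => x y.1)) ∈ Em Q k S := by
  intro g ν d hg
  rw [GA_mul hg hab, hF g ν d hg]
  have hcard : Fintype.card S = Fintype.card {x // x ≠ a ∧ x ≠ b} + 2 := by
    have h1 := sum_split' hab (fun _ : S => 1)
    simp only [Finset.sum_const, Finset.card_univ, smul_eq_mul, mul_one] at h1
    omega
  funext x
  rw [Pi.smul_apply, Pi.smul_apply, smul_eq_mul, smul_eq_mul, hcard, pow_add]
  ring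

theorem EmM_mul {Q : Matrix J J K} {k : ℕ} {a b : S} (hab : a ≠ b)
    {f : ({x // x ≠ a ∧ x ≠ b} → J) → M} (hf : f ∈ EmM K M Q k {x // x ≠ a ∧ x ≠ b}) :
    (fun x : S → J => Q (x a) (x b) • f (fun y => x y.1)) ∈ EmM K M Q k S := by
  unfold EmM at hf
  induction hf using Submodule.span_induction with
  | mem f hf =>
    obtain ⟨F, hF, w, rfl⟩ := hf
    refine Submodule.subset_span ⟨_, Em_mul hab hF, w, ?_⟩
    funext x
    rw [smul_smul]
  | zero =>
    have h1 : (fun x : S → J => Q (x a) (x b) •
        (0 : ({x // x ≠ a ∧ x ≠ b} → J) → M) (fun y => x y.1)) = 0 := by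
      funext x
      rw [Pi.zero_apply, smul_zero, Pi.zero_apply]
    rw [h1]
    exact Submodule.zero_mem _
  | add f f' _ _ hf hf' =>
    have h1 := Submodule.add_mem _ hf hf'
    have h2 : (fun x : S → J => Q (x a) (x b) • (f + f') (fun y => x y.1)) =
        (fun x : S → J => Q (x a) (x b) • f (fun y => x y.1)) +
        fun x : S → J => Q (x a) (x b) • f' (fun y => x y.1) := by
      funext x
      rw [Pi.add_apply, Pi.add_apply, smul_add]
    rw [h2]
    exact h1
  | smul c f _ hf =>
    have h1 := Submodule.smul_mem _ c hf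
    have h2 : (fun x : S → J => Q (x a) (x b) • (c • f) (fun y => x y.1)) =
        c • fun x : S → J => Q (x a) (x b) • f (fun y => x y.1) := by
      funext x
      rw [Pi.smul_apply, Pi.smul_apply, smul_comm]
    rw [h2]
    exact h1

theorem Em_perm {Q : Matrix J J K} {k : ℕ} (σ : Equiv.Perm S) {F : (S → J) → K}
    (hF : F ∈ Em Q k S) : (fun x : S → J => F (fun j => x (σ j))) ∈ Em Q k S := by
  intro g ν d hg
  funext x
  rw [GA_perm, hF g ν d hg]
  rfl

theorem EmM_perm {Q : Matrix J J K} {k : ℕ} (σ : Equiv.Perm S) {f : (S → J) → M}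
    (hf : f ∈ EmM K M Q k S) : (fun x : S → J => f (fun j => x (σ j))) ∈ EmM K M Q k S := by
  unfold EmM at hf
  induction hf using Submodule.span_induction with
  | mem f hf =>
    obtain ⟨F, hF, w, rfl⟩ := hf
    exact Submodule.subset_span ⟨_, Em_perm σ hF, w, rfl⟩
  | zero => exact Submodule.zero_mem _
  | add f f' _ _ hf hf' => exact Submodule.add_mem _ hf hf'
  | smul c f _ hf => exact Submodule.smul_mem _ c hf

end

/-- the determinant form -/
def dtf {S : Type} (e : J ≃ S) (x : S → J) : K :=
  (Matrix.of fun a b : J => if x (e a) = b then (1 : K) else 0).det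

theorem dtf_Em {Q : Matrix J J K} {S : Type} [Fintype S] [DecidableEq S] (e : J ≃ S) :
    (dtf e : (S → J) → K) ∈ Em Q 1 S := by
  intro g ν d hg
  funext x
  rw [Pi.smul_apply, pow_one, smul_eq_mul, ← Fintype.card_congr e, ← hg.2]
  have h1 : GA g (dtf e : (S → J) → K) x =
      GA g (fun y : J → J => (Matrix.of fun a b : J => if y a = b then (1 : K) else 0).det)
        (fun a => x (e a)) := by
    rw [← GA_perm]
    rfl
  rw [h1]
  unfold GA
  have h2 := (Matrix.detRowAlternating (n := J) (R := K)).toMultilinearMap.map_sum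
    (g := fun a b : J => g b (x (e a)) • (fun c : J => if b = c then (1 : K) else 0))
  have h3 : (fun a : J => ∑ b : J, g b (x (e a)) • (fun c : J => if b = c then (1 : K) else 0)) =
      (Matrix.of fun a b : J => if x (e a) = b then (1 : K) else 0) * g.transpose := by
    funext a c
    rw [Finset.sum_apply, Matrix.mul_apply]
    simp [Matrix.transpose_apply]
  have h4 : ∀ r : J → J, (Matrix.detRowAlternating (n := J) (R := K)).toMultilinearMap
      (fun a => g (r a) (x (e a)) • (fun c : J => if r a = c then (1 : K) else 0)) =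
      (∏ a, g (r a) (x (e a))) •
        (Matrix.of fun a b : J => if r a = b then (1 : K) else 0).det := by
    intro r
    rw [MultilinearMap.map_smul_univ]
    rfl
  rw [h3] at h2
  simp only [h4] at h2
  rw [← h2]
  change ((Matrix.of fun a b : J => if x (e a) = b then (1 : K) else 0) * g.transpose).det = _
  rw [Matrix.det_mul, Matrix.det_transpose, mul_comm]
  rfl

theorem dtf_swap {S : Type} [Fintype S] [DecidableEq S] (e : J ≃ S) (x : S → J) {a b : S}
    (hab : a ≠ b) : (dtf e (x ∘ Equiv.swap a b) : K) = -dtf e x := by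
  have h1 : (Matrix.of fun c d : J => if (x ∘ Equiv.swap a b) (e c) = d then (1 : K) else 0) =
      (Matrix.of fun c d : J => if x (e c) = d then (1 : K) else 0).submatrix
        (Equiv.swap (e.symm a) (e.symm b)) id := by
    ext c d
    simp only [Matrix.of_apply, Matrix.submatrix_apply, id, Function.comp]
    have h2 : e (Equiv.swap (e.symm a) (e.symm b) c) = Equiv.swap a b (e c) := by
      rw [Equiv.swap_apply_def, Equiv.swap_apply_def]
      by_cases h3 : c = e.symm a
      · rw [if_pos h3, h3, Equiv.apply_symm_apply, Equiv.apply_symm_apply, if_pos rfl]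
      · have h4 : ¬e c = a := fun h => h3 (by rw [← h, Equiv.symm_apply_apply])
        rw [if_neg h3, if_neg h4]
        by_cases h5 : c = e.symm b
        · rw [if_pos h5, h5, Equiv.apply_symm_apply, Equiv.apply_symm_apply, if_pos rfl]
        · have h6 : ¬e c = b := fun h => h5 (by rw [← h, Equiv.symm_apply_apply])
          rw [if_neg h5, if_neg h6]
    rw [h2]
  rw [dtf, h1, Matrix.det_permute, Equiv.Perm.sign_swap (fun h => hab (e.symm.injective h))]
  simp [dtf]

theorem dtf_zero {S : Type} [Fintype S] [DecidableEq S] (e : J ≃ S) {x : S → J}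
    (hx : ¬Bijective x) : (dtf e x : K) = 0 := by
  have h1 : ¬Injective (fun a => x (e a)) := by
    intro h
    apply hx
    have h2 : Bijective (fun a => x (e a)) := Finite.injective_iff_bijective.1 h
    have h3 : x = (fun a => x (e a)) ∘ e.symm := by
      funext s
      simp
    rw [h3]
    exact h2.comp e.symm.bijective
  rw [Injective] at h1
  push Not at h1
  obtain ⟨a, b, hab, hne⟩ := h1
  rw [dtf]
  refine Matrix.det_zero_of_row_eq hne ?_
  funext c
  simp only [Matrix.of_apply]
  rw [hab]

/-- alternating forms of top degree -/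
theorem top_EmM {Q : Matrix J J K} {S : Type} [Fintype S] [DecidableEq S]
    (hc : Fintype.card S = Fintype.card J) {f : (S → J) → M} (h1 : ∀ x, ¬Bijective x → f x = 0)
    (h2 : ∀ x a b, a ≠ b → f (x ∘ Equiv.swap a b) = -f x) : f ∈ EmM K M Q 1 S := by
  classical
  let e : J ≃ S := Fintype.equivOfCardEq hc.symm
  refine Submodule.subset_span ⟨dtf e, dtf_Em e, f e.symm, ?_⟩
  funext x
  by_cases hx : Bijective x
  · -- `x` is a permutation of `e.symm`
    let σ : Equiv.Perm S := (Equiv.ofBijective x hx).trans e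
    have hσ : x = e.symm ∘ σ := by
      funext s
      simp [σ]
    have h3 : ∀ σ : Equiv.Perm S, f (e.symm ∘ σ) = (dtf e (e.symm ∘ σ) : K) • f e.symm := by
      intro σ
      induction σ using Equiv.Perm.swap_induction_on' with
      | one =>
        have h4 : (dtf e (e.symm ∘ (1 : Equiv.Perm S)) : K) = 1 := by
          rw [dtf]
          have h5 : (Matrix.of fun a b : J => if (e.symm ∘ (1 : Equiv.Perm S)) (e a) = b then (1 : K)
              else 0) = 1 := by
            ext a b
            simp [Matrix.one_apply]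
          rw [h5, Matrix.det_one]
        rw [h4, one_smul]
        rfl
      | mul_swap f' a b hab ih =>
        have h4 : (e.symm ∘ (f' * Equiv.swap a b : Equiv.Perm S)) =
            (e.symm ∘ f') ∘ Equiv.swap a b := rfl
        rw [h4, h2 _ a b hab, dtf_swap e _ hab, ih, neg_smul]
    rw [hσ]
    exact h3 σ
  · rw [h1 x hx, dtf_zero e hx, zero_smul]

variable {Q R : Matrix J J K} (hQs : ∀ a b, Q a b = Q b a) (hQR : Q * R = 1)

include hQs hQR in
/-- **The first fundamental theorem** for the special orthogonal group. -/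
theorem fftS [CharZero K] (N : ℕ) : ∀ (S : Type) [Fintype S] [DecidableEq S]
    (f : (S → J) → M), Fintype.card S = N → Inv (fun _ : J => ()) Q (fun _ => 1) f →
    f ∈ EmM K M Q 0 S ⊔ EmM K M Q 1 S := by
  classical
  induction N using Nat.strong_induction_on with
  | _ N ih =>
    intro S _ _ f hN hinv
    rcases isEmpty_or_nonempty S with hS | hS
    · refine Submodule.mem_sup_left (Submodule.subset_span
        ⟨fun _ => 1, fun g ν d _ => ?_, f (fun j => (hS.false j).elim), ?_⟩)
      · funext x
        unfold GA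
        simp
      · funext x
        rw [one_smul]
        congr 1
        funext j
        exact (hS.false j).elim
    · have hA : opA f ∈ EmM K M Q 0 S ⊔ EmM K M Q 1 S := by
        rw [opA_con hQR hinv]
        refine Submodule.sum_mem _ fun a _ => Submodule.sum_mem _ fun b hb => ?_
        have hab : a ≠ b := Ne.symm (Finset.mem_erase.1 hb).1
        have h1 : con1 R a b f ∈ EmM K M Q 0 {x // x ≠ a ∧ x ≠ b} ⊔
            EmM K M Q 1 {x // x ≠ a ∧ x ≠ b} := by
          refine ih (Fintype.card {x // x ≠ a ∧ x ≠ b}) ?_ _ _ rfl ?_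
          · rw [← hN]
            exact Fintype.card_subtype_lt (x := a) (fun h => h.1 rfl)
          · have h2 := inv_con (κ := fun _ : J => ()) (Q := Q) (R := R) (s := fun _ => 1)
              (fun _ => Or.inl rfl) (fun a b h => absurd rfl h)
              (fun a b => by rw [Int.cast_one, one_mul]; exact hQs a b) hQR
              (f := f) (by simpa using hinv) (i := ()) hab
            simpa using h2
        obtain ⟨f0, hf0, f1, hf1, hff⟩ := Submodule.mem_sup.1 h1
        rw [← hff]
        refine Submodule.mem_sup.2 ⟨_, EmM_mul hab hf0, _, EmM_mul hab hf1, ?_⟩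
        funext x
        rw [Pi.add_apply, Pi.add_apply, smul_add]
      obtain ⟨f₀, h1, h2, h3⟩ := exists_dec (K := K) (EmM K M Q 0 S ⊔ EmM K M Q 1 S)
        (fun g hg a b => by
          obtain ⟨f0, hf0, f1, hf1, rfl⟩ := Submodule.mem_sup.1 hg
          exact Submodule.mem_sup.2 ⟨_, EmM_perm (Equiv.swap a b) hf0, _,
            EmM_perm (Equiv.swap a b) hf1, rfl⟩) hA
      have hf0 : f₀ ∈ EmM K M Q 0 S ⊔ EmM K M Q 1 S := by
        by_cases hc : Fintype.card S = Fintype.card J
        · obtain ⟨h4, h5⟩ := h3 hc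
          exact Submodule.mem_sup_right (top_EmM hc h4 h5)
        · rw [h2 Fintype.card_pos hc]
          exact Submodule.zero_mem _
      have h4 := Submodule.add_mem _ h1 hf0
      rwa [sub_add_cancel] at h4

/-- the matrix of a reflection in a coordinate -/
def refm (K : Type*) [Field K] {J : Type} [DecidableEq J] (o : J) : Matrix J J K :=
  Matrix.diagonal fun q => if q = o then -1 else 1

theorem refm_sim {o : J} (hQs : ∀ a b, Q a b = Q b a) (ho : ∀ q, q ≠ o → Q o q = 0) :
    Sim Q (refm K o) 1 (-1) := by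
  constructor
  · rw [refm, Matrix.diagonal_transpose]
    ext a b
    rw [Matrix.mul_diagonal, Matrix.diagonal_mul, Matrix.smul_apply, smul_eq_mul]
    by_cases h1 : a = o
    · by_cases h2 : b = o
      · rw [if_pos h1, if_pos h2]
        ring
      · rw [h1, ho b h2]
        ring
    · by_cases h2 : b = o
      · rw [h2, hQs, ho a h1]
        ring
      · rw [if_neg h1, if_neg h2]
        ring
  · rw [refm, Matrix.det_diagonal, one_pow, mul_one, Finset.prod_eq_single o]
    · rw [if_pos rfl]
    · intro b _ hb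
      rw [if_neg hb]
    · intro h
      exact absurd (Finset.mem_univ _) h

theorem GA_refm {o : J} {S : Type} [Fintype S] [DecidableEq S] (f : (S → J) → M) (x : S → J) :
    GA (refm K o) f x = ((-1 : K) ^ occ x o) • f x := by
  unfold GA
  rw [Finset.sum_eq_single x]
  · congr 1
    rw [occ, Finset.card_filter, ← Finset.prod_pow_eq_pow_sum]
    refine Finset.prod_congr rfl fun j _ => ?_
    rw [refm, Matrix.diagonal_apply_eq]
    by_cases h : x j = o
    · rw [if_pos h, if_pos h, pow_one]
    · rw [if_neg h, if_neg h, pow_zero]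
  · intro y _ hy
    obtain ⟨j, hj⟩ := Function.ne_iff.1 hy
    rw [Finset.prod_eq_zero (Finset.mem_univ j), zero_smul]
    rw [refm, Matrix.diagonal_apply_ne _ hj]
  · intro h
    exact absurd (Finset.mem_univ _) h

include hQs hQR in
/-- **Similitudes act on the coordinates by scalars.** -/
theorem semi [CharZero K] {o : J} (ho : ∀ q, q ≠ o → Q o q = 0) {S : Type} [Fintype S]
    [DecidableEq S] {f : (S → J) → M} (hf : Inv (fun _ : J => ()) Q (fun _ => 1) f)
    {g : Matrix J J K} {ν d : K} (hg : Sim Q g ν d) (x : S → J) :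
    (Even (occ x o) → GA g f x = (ν ^ Fintype.card S) • f x) ∧
      (Odd (occ x o) → GA g f x = (d * ν ^ Fintype.card S) • f x) := by
  obtain ⟨f0, hf0, f1, hf1, rfl⟩ := Submodule.mem_sup.1 (fftS hQs hQR _ S f rfl hf)
  have h2 : (2 : K) ≠ 0 := two_ne_zero
  have e0 : Odd (occ x o) → f0 x = 0 := by
    intro h
    have h1 := congrFun (EmM_GA (refm_sim hQs ho) hf0) x
    rw [GA_refm, h.neg_one_pow, Pi.smul_apply, pow_zero, one_pow, one_mul, one_smul,
      neg_one_smul] at h1
    have h3 : (2 : K) • f0 x = 0 := by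
      rw [two_smul]
      nth_rw 1 [← h1]
      exact neg_add_cancel _
    exact (smul_eq_zero.1 h3).resolve_left h2
  have e1 : Even (occ x o) → f1 x = 0 := by
    intro h
    have h1 := congrFun (EmM_GA (refm_sim hQs ho) hf1) x
    rw [GA_refm, h.neg_one_pow, Pi.smul_apply, pow_one, one_pow, mul_one, one_smul,
      neg_one_smul] at h1
    have h3 : (2 : K) • f1 x = 0 := by
      rw [two_smul]
      nth_rw 1 [h1]
      exact neg_add_cancel _
    exact (smul_eq_zero.1 h3).resolve_left h2
  rw [GA_add, EmM_GA hg hf0, EmM_GA hg hf1, Pi.add_apply, Pi.add_apply, Pi.smul_apply,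
    Pi.smul_apply, pow_zero, one_mul, pow_one]
  constructor
  · intro h
    rw [e1 h, smul_zero, add_zero, add_zero]
  · intro h
    rw [e0 h, smul_zero, zero_add, zero_add]

end Pool.Agent.Y127
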