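import Pool.Agent.TH125.Gal.Str

/-!
# Adapted bases with a given dual basis of the transcendental part
-/

open CategoryTheory AlgebraicGeometry Finset

set_option linter.unusedSectionVars false

universe u v w

namespace Pool.Agent.Y127

open Pool.Agent.H914 Pool.Agent.H914.VarClass Pool.Agent.H914.VarClass.Obj
  Pool.Agent.H914.WeilCohomology Pool.Agent.H281R3.HT Pool.Agent.W552 Pool.Agent.TH125.Gal

variable {k : Type u} [Field k] {𝒱 : VarClass k} {ops : CycleOps 𝒱}
  {W : WeilCohomology.{u, v} ops} {X : 𝒱.Obj}

theorem trans_nondegenerate (hDX : HomEqNum W X) :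
    LinearMap.BilinForm.Nondegenerate (rform W X (transcendental W X)) := by
  have h1 : ∀ a, (∀ b, rform W X (transcendental W X) a b = 0) → a = 0 :=
    fun a h => trans_nondeg hDX a h
  refine ⟨h1, ?_⟩
  have h2 : Function.Injective (rform W X (transcendental W X)) :=
    (injective_iff_map_eq_zero _).2 fun a ha => h1 a fun b => by rw [ha]; rfl
  intro a ha
  by_contra ha0
  have h3 : Function.Surjective (rform W X (transcendental W X)) :=
    (LinearMap.injective_iff_surjective_of_finrank_eq_finrank
      (Subspace.dual_finrank_eq).symm).1 h2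
  obtain ⟨φ, hφ⟩ : ∃ φ : Module.Dual W.K (transcendental W X), φ a ≠ 0 := by
    by_contra hcon
    push Not at hcon
    exact ha0 ((Module.forall_dual_apply_eq_zero_iff W.K a).1 hcon)
  obtain ⟨b, rfl⟩ := h3 φ
  exact hφ (ha b)

/-- An adapted basis whose dual basis of the transcendental part is given. -/
theorem exists_SB_uT (hDX : HomEqNum W X) {N : ℕ}
    (t : Module.Basis (Fin N) W.K (transcendental W X)) :
    ∃ (s : SB W X) (h : s.NT = N), ∀ i, s.uT i = t (Fin.cast h i) := by
  obtain ⟨NC, bC, jC, hjC⟩ := exists_algBasis W X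
  have hC : LinearMap.BilinForm.Nondegenerate (rform W X (algSpan W X)) := by
    refine ⟨fun a h => alg_nondeg hDX a h, fun a h => alg_nondeg hDX a fun b => ?_⟩
    rw [rform_apply, bil_apply, alg_comm a.2, ← bil_apply]
    exact h b
  have hT := trans_nondegenerate hDX
  have hTf : LinearMap.BilinForm.Nondegenerate
      (LinearMap.flip (rform W X (transcendental W X))) := by
    exact ⟨fun a h => hT.2 a h, fun a h => hT.1 a h⟩
  let bT := LinearMap.BilinForm.dualBasis _ hTf t
  have hbT : ∀ i j, bil W X (t i) (bT j) = if j = i then 1 else 0 := by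
    intro i j
    have h1 := LinearMap.BilinForm.apply_dualBasis_left
      (B := LinearMap.flip (rform W X (transcendental W X))) hTf t j i
    rw [LinearMap.flip_apply] at h1
    rw [← rform_apply, h1]
    by_cases hij : i = j
    · rw [if_pos hij, if_pos hij.symm]
    · rw [if_neg hij, if_neg (Ne.symm hij)]
  exact ⟨{
    NC := NC
    NT := N
    bC := bC
    jC := jC
    alg := hjC
    bT := bT
    e := (bC.prod bT).map (Submodule.prodEquivOfIsCompl _ _ (isCompl hDX))
    e_inl := fun i => by
      rw [Module.Basis.map_apply, Module.Basis.prod_apply]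
      simp
    e_inr := fun i => by
      rw [Module.Basis.map_apply, Module.Basis.prod_apply]
      simp
    uC := LinearMap.BilinForm.dualBasis _ hC bC
    uT := t
    uC_bC := fun i j => LinearMap.BilinForm.apply_dualBasis_left hC bC i j
    uT_bT := hbT }, rfl, fun i => rfl⟩

/-- A basis of the transcendental part whose first element is a given class and whose other
elements are orthogonal to it. -/
theorem exists_adapted {K : Type*} [Field K] {T : Type*} [AddCommGroup T] [Module K T]
    [Module.Finite K T] (B : T →ₗ[K] T →ₗ[K] K) {δ : T} (hδ : B δ δ ≠ 0) :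
    ∃ (N : ℕ) (t : Module.Basis (Fin (N + 1)) K T), t 0 = δ ∧ ∀ i, i ≠ 0 → B δ (t i) = 0 := by
  let bk := Module.finBasis K (LinearMap.ker (B δ))
  let t := Module.Basis.mkFinCons δ bk
    (by
      intro c x hx hc
      have h1 : B δ x = 0 := hx
      have h2 : B δ (c • δ + x) = 0 := by rw [hc, map_zero]
      rw [map_add, map_smul, h1, add_zero, smul_eq_mul] at h2
      exact (mul_eq_zero.1 h2).resolve_right hδ)
    (by
      intro z
      refine ⟨-(B δ z / B δ δ), ?_⟩
      rw [LinearMap.mem_ker, map_add, map_smul, smul_eq_mul, neg_mul, div_mul_cancel₀ _ hδ,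
        add_neg_cancel])
  refine ⟨_, t, ?_, ?_⟩
  · rw [Module.Basis.coe_mkFinCons, Fin.cons_zero]
  · intro i hi
    obtain ⟨j, rfl⟩ := Fin.exists_succ_eq.2 hi
    rw [Module.Basis.coe_mkFinCons, Fin.cons_succ]
    exact (bk j).2

end Pool.Agent.Y127
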