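import Mathlib

/-!
# Averages over a subgroup of finite index
-/

open Finset

set_option linter.unusedSectionVars false

namespace Pool.Agent.Y127

variable {K : Type*} [Field K] [CharZero K] {V : Type*} [AddCommGroup V] [Module K V]
  {Γ : Type*} [Group Γ]

/-- An invariant element of the span of a set which is closed under addition and under the
group, whose elements have finite orbits, is in the span of the invariant elements of the set. -/
theorem avg_mem (θ : Γ →* (V →ₗ[K] V)) {C : Set V} (h0 : (0 : V) ∈ C)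
    (hadd : ∀ a ∈ C, ∀ b ∈ C, a + b ∈ C) (hact : ∀ g, ∀ a ∈ C, θ g a ∈ C)
    (hfix : ∀ a ∈ C, ∃ Δ : Subgroup Γ, Δ.FiniteIndex ∧ ∀ g ∈ Δ, θ g a = a)
    {c : V} (hc : c ∈ Submodule.span K C) (hinv : ∀ g, θ g c = c) :
    c ∈ Submodule.span K {a ∈ C | ∀ g, θ g a = a} := by
  classical
  obtain ⟨n, x, a, hca⟩ := Submodule.mem_span_set'.1 hc
  choose Δ hΔ hfixΔ using fun i => hfix (a i) (a i).2
  set H : Subgroup Γ := ⨅ i, Δ i with hH
  have hHfin : H.FiniteIndex := Subgroup.finiteIndex_iInf hΔ
  have hHfix : ∀ g ∈ H, ∀ i, θ g (a i) = a i := fun g hg i =>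
    hfixΔ i g (Subgroup.mem_iInf.1 hg i)
  have := Subgroup.fintypeQuotientOfFiniteIndex (H := H)
  -- the average of a vector fixed by `H`
  have hwd : ∀ v : V, (∀ g ∈ H, θ g v = v) → ∀ g g' : Γ, (QuotientGroup.leftRel H) g g' →
      θ g v = θ g' v := by
    intro v hv g g' hgg
    rw [QuotientGroup.leftRel_apply] at hgg
    have h1 := hv _ hgg
    have h2 : θ g' v = θ g (θ (g⁻¹ * g') v) := by
      rw [← Module.End.mul_apply, ← map_mul, mul_inv_cancel_left]
    rw [h2, h1]
  let F : (v : V) → (∀ g ∈ H, θ g v = v) → Γ ⧸ H → V := fun v hv =>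
    Quotient.lift (fun g => θ g v) (hwd v hv)
  have hF : ∀ v hv g, F v hv (QuotientGroup.mk g) = θ g v := fun v hv g => rfl
  have hFinv : ∀ v hv g, θ g (∑ q, F v hv q) = ∑ q, F v hv q := by
    intro v hv g
    rw [map_sum]
    have h1 : ∀ q : Γ ⧸ H, θ g (F v hv q) = F v hv (g • q) := by
      intro q
      induction q using QuotientGroup.induction_on with
      | H γ =>
        rw [hF v hv, MulAction.Quotient.smul_coe, hF v hv, smul_eq_mul, map_mul]
        rfl
    rw [Finset.sum_congr rfl fun q _ => h1 q]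
    exact Equiv.sum_comp (MulAction.toPerm g) (F v hv)
  have hFC : ∀ i, ∑ q, F (a i) (fun g hg => hHfix g hg i) q ∈ C := by
    intro i
    have h1 : ∀ q, F (a i) (fun g hg => hHfix g hg i) q ∈ C := by
      intro q
      induction q using QuotientGroup.induction_on with
      | H γ => exact hact γ _ (a i).2
    exact Finset.sum_induction _ (· ∈ C) (fun a b ha hb => hadd a ha b hb) h0 fun q _ => h1 q
  have hcc : (Fintype.card (Γ ⧸ H) : K) • c =
      ∑ i, x i • ∑ q, F (a i) (fun g hg => hHfix g hg i) q := by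
    have h1 : ∀ q : Γ ⧸ H, c = ∑ i, x i • F (a i) (fun g hg => hHfix g hg i) q := by
      intro q
      induction q using QuotientGroup.induction_on with
      | H γ =>
        conv_lhs => rw [← hinv γ, ← hca, map_sum]
        refine Finset.sum_congr rfl fun i _ => ?_
        rw [map_smul, hF _ fun g hg => hHfix g hg i]
    have h2 : (Fintype.card (Γ ⧸ H) : K) • c = ∑ _q : Γ ⧸ H, c := by
      rw [Finset.sum_const, Finset.card_univ, Nat.cast_smul_eq_nsmul]
    rw [h2, Finset.sum_congr rfl fun q _ => h1 q, Finset.sum_comm]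
    refine Finset.sum_congr rfl fun i _ => ?_
    rw [Finset.smul_sum]
  have hne : (Fintype.card (Γ ⧸ H) : K) ≠ 0 := by
    rw [Nat.cast_ne_zero]
    exact Fintype.card_ne_zero
  have h3 : c = (Fintype.card (Γ ⧸ H) : K)⁻¹ •
      ∑ i, x i • ∑ q, F (a i) (fun g hg => hHfix g hg i) q := by
    rw [← hcc, smul_smul, inv_mul_cancel₀ hne, one_smul]
  rw [h3]
  refine Submodule.smul_mem _ _ (Submodule.sum_mem _ fun i _ => Submodule.smul_mem _ _ ?_)
  exact Submodule.subset_span ⟨hFC i, fun g => hFinv _ (fun g hg => hHfix g hg i) g⟩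

end Pool.Agent.Y127
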