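import Pool.Agent.Y127.Pos

/-!
# Functions that are mapped into a stable subspace by the operator `opA`
-/

set_option linter.unusedSectionVars false

open Finset Function Polynomial

namespace Pool.Agent.Y127

variable {S J : Type} [Fintype S] [DecidableEq S] [Fintype J] [DecidableEq J]

/-- a polynomial identity for self-adjoint operators -/
theorem exists_poly {ι : Type} [Fintype ι] [DecidableEq ι] (A : Matrix ι ι ℚ)
    (hA : A.transpose = A) : ∃ u : ℚ[X], A = aeval A u * (A * A) := by
  classical
  set p := minpoly ℚ A with hp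
  have hp0 : p ≠ 0 := minpoly.ne_zero (Matrix.isIntegral A)
  have hker : ∀ v : ι → ℚ, (A * A).mulVec v = 0 → A.mulVec v = 0 := by
    intro v hv
    have h1 : (A.mulVec v) ⬝ᵥ (A.mulVec v) = 0 := by
      have h2 : (A.mulVec v) ⬝ᵥ (A.mulVec v) = v ⬝ᵥ ((A * A).mulVec v) := by
        conv_rhs => rw [← Matrix.mulVec_mulVec, Matrix.dotProduct_mulVec, ← Matrix.mulVec_transpose,
          hA]
      rw [h2, hv, dotProduct_zero]
    exact dotProduct_self_eq_zero.1 h1
  have hX2 : ¬ (X ^ 2 ∣ p) := by
    rintro ⟨q, hq⟩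
    have h1 : aeval A (X * q) = 0 := by
      rw [map_mul, aeval_X]
      have h2 : (A * A) * aeval A q = 0 := by
        have h3 : aeval A p = 0 := minpoly.aeval ℚ A
        rw [hq, map_mul, map_pow, aeval_X, pow_two] at h3
        exact h3
      apply Matrix.ext_of_mulVec_single
      intro i
      rw [← Matrix.mulVec_mulVec, Matrix.zero_mulVec]
      apply hker
      rw [Matrix.mulVec_mulVec, h2, Matrix.zero_mulVec]
    have h2 := minpoly.degree_le_of_ne_zero ℚ A (p := X * q) ?_ h1
    · rw [← hp, hq] at h2
      have hq0 : q ≠ 0 := by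
        rintro rfl
        rw [mul_zero] at hq
        exact hp0 hq
      rw [degree_mul, degree_mul, degree_X_pow, degree_X, degree_eq_natDegree hq0] at h2
      have h3 : (((2 : ℕ) : WithBot ℕ) + q.natDegree) ≤ 1 + q.natDegree := h2
      have h4 : 2 + q.natDegree ≤ 1 + q.natDegree := by exact_mod_cast h3
      omega
    · intro h3
      rcases mul_eq_zero.1 h3 with h3 | h3
      · exact X_ne_zero h3
      · rw [h3, mul_zero] at hq
        exact hp0 hq
  -- the greatest common divisor of `X ^ 2` and `p` divides `X`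
  have hg : EuclideanDomain.gcd (X ^ 2) p ∣ (X : ℚ[X]) := by
    have h1 : EuclideanDomain.gcd (X ^ 2) p ∣ (X : ℚ[X]) ^ 2 := EuclideanDomain.gcd_dvd_left _ _
    obtain ⟨i, hi, hassoc⟩ := (dvd_prime_pow (prime_X (R := ℚ)) 2).1 h1
    have hi2 : i ≠ 2 := by
      rintro rfl
      exact hX2 (hassoc.symm.dvd.trans (EuclideanDomain.gcd_dvd_right _ _))
    have h2 : i ≤ 1 := by omega
    exact hassoc.dvd.trans ((pow_dvd_pow X h2).trans (by rw [pow_one]))
  obtain ⟨c, hc⟩ := hg
  have hb := EuclideanDomain.gcd_eq_gcd_ab (X ^ 2 : ℚ[X]) p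
  refine ⟨EuclideanDomain.gcdA (X ^ 2) p * c, ?_⟩
  have h1 : (X : ℚ[X]) = (EuclideanDomain.gcdA (X ^ 2) p * c) * (X * X) +
      p * (EuclideanDomain.gcdB (X ^ 2) p * c) := by
    conv_lhs => rw [hc, hb]
    ring
  have h2 := congrArg (aeval A) h1
  rw [aeval_X, map_add, map_mul _ p, hp, minpoly.aeval, zero_mul, add_zero, map_mul, map_mul _ X X,
    aeval_X] at h2
  exact h2

/-- the matrix of the operator -/
def matA (S J : Type) [Fintype S] [DecidableEq S] [Fintype J] [DecidableEq J] :
    Matrix (S → J) (S → J) ℚ :=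
  fun x y => (((Fintype.card J : ℤ) - 1) * Fintype.card S : ℤ) * (if x = y then 1 else 0) +
    ∑ a, ∑ b ∈ univ.erase a, if x ∘ Equiv.swap a b = y then 1 else 0

theorem matA_symm : (matA S J).transpose = matA S J := by
  ext x y
  rw [Matrix.transpose_apply]
  unfold matA
  have h1 : ∀ a b : S, (y ∘ Equiv.swap a b = x) ↔ (x ∘ Equiv.swap a b = y) := by
    intro a b
    have h2 : ∀ z : S → J, (z ∘ Equiv.swap a b) ∘ Equiv.swap a b = z := by
      intro z
      funext c
      simp
    constructor
    · rintro rfl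
      exact h2 y
    · rintro rfl
      exact h2 x
  simp only [h1, eq_comm (a := y) (b := x)]

theorem matA_mulVec (v : (S → J) → ℚ) : (matA S J).mulVec v = opA v := by
  funext x
  unfold Matrix.mulVec dotProduct matA opA
  simp only [add_mul, Finset.sum_add_distrib]
  congr 1
  · rw [Finset.sum_eq_single x]
    · rw [if_pos rfl, mul_one, zsmul_eq_mul]
    · intro y _ hy
      rw [if_neg (Ne.symm hy), mul_zero, zero_mul]
    · intro h
      exact absurd (Finset.mem_univ _) h
  · simp only [Finset.sum_mul]
    rw [Finset.sum_comm]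
    refine Finset.sum_congr rfl fun a _ => ?_
    rw [Finset.sum_comm]
    refine Finset.sum_congr rfl fun b _ => ?_
    rw [Finset.sum_eq_single (x ∘ Equiv.swap a b)]
    · rw [if_pos rfl, one_mul]
    · intro y _ hy
      rw [if_neg (Ne.symm hy), zero_mul]
    · intro h
      exact absurd (Finset.mem_univ _) h

section M

variable {K : Type*} [Field K] [CharZero K] {M : Type*} [AddCommGroup M] [Module K M]

/-- the action of a rational matrix on functions with values in a vector space -/
def act (K : Type*) [Field K] {M : Type*} [AddCommGroup M] [Module K M] {ι : Type} [Fintype ι]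
    (B : Matrix ι ι ℚ) (f : ι → M) : ι → M := fun x => ∑ y, ((B x y : ℚ) : K) • f y

variable {ι : Type} [Fintype ι] [DecidableEq ι]

theorem act_one (f : ι → M) : act K (1 : Matrix ι ι ℚ) f = f := by
  funext x
  unfold act
  rw [Finset.sum_eq_single x]
  · rw [Matrix.one_apply_eq, Rat.cast_one, one_smul]
  · intro y _ hy
    rw [Matrix.one_apply_ne (Ne.symm hy), Rat.cast_zero, zero_smul]
  · intro h
    exact absurd (Finset.mem_univ _) h

theorem act_mul (B C : Matrix ι ι ℚ) (f : ι → M) : act K (B * C) f = act K B (act K C f) := by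
  funext x
  unfold act
  simp only [Matrix.mul_apply, Rat.cast_sum, Rat.cast_mul, Finset.sum_smul, Finset.smul_sum,
    smul_smul]
  rw [Finset.sum_comm]

theorem act_add (B C : Matrix ι ι ℚ) (f : ι → M) : act K (B + C) f = act K B f + act K C f := by
  funext x
  unfold act
  simp only [Matrix.add_apply, Rat.cast_add, add_smul, Finset.sum_add_distrib, Pi.add_apply]

theorem act_sub (B C : Matrix ι ι ℚ) (f : ι → M) : act K (B - C) f = act K B f - act K C f := by
  funext x
  unfold act
  simp only [Matrix.sub_apply, Rat.cast_sub, sub_smul, Finset.sum_sub_distrib, Pi.sub_apply]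

theorem act_smul (r : ℚ) (B : Matrix ι ι ℚ) (f : ι → M) :
    act K (r • B) f = (r : K) • act K B f := by
  funext x
  unfold act
  simp only [Matrix.smul_apply, smul_eq_mul, Rat.cast_mul, mul_smul, Pi.smul_apply,
    Finset.smul_sum]

theorem act_poly {W : Submodule K (ι → M)} {A : Matrix ι ι ℚ} (hA : ∀ f ∈ W, act K A f ∈ W)
    (u : ℚ[X]) : ∀ f ∈ W, act K (aeval A u) f ∈ W := by
  induction u using Polynomial.induction_on' with
  | add p q hp hq =>
    intro f hf
    rw [map_add, act_add]
    exact W.add_mem (hp f hf) (hq f hf)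
  | monomial n r =>
    intro f hf
    rw [aeval_monomial, ← Algebra.smul_def, act_smul]
    refine W.smul_mem _ ?_
    induction n with
    | zero => rw [pow_zero, act_one]; exact hf
    | succ n ih => rw [pow_succ', act_mul]; exact hA _ ih

theorem act_matA (f : (S → J) → M) : act K (matA S J) f = opA f := by
  funext x
  unfold act matA opA
  simp only [Rat.cast_add, Rat.cast_mul, Rat.cast_sum, add_smul, Finset.sum_add_distrib]
  congr 1
  · rw [Finset.sum_eq_single x]
    · rw [if_pos rfl, Rat.cast_one, mul_one, Rat.cast_intCast, Int.cast_smul_eq_zsmul]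
    · intro y _ hy
      rw [if_neg (Ne.symm hy), Rat.cast_zero, mul_zero, zero_smul]
    · intro h
      exact absurd (Finset.mem_univ _) h
  · simp only [Finset.sum_smul]
    rw [Finset.sum_comm]
    refine Finset.sum_congr rfl fun a _ => ?_
    rw [Finset.sum_comm]
    refine Finset.sum_congr rfl fun b _ => ?_
    rw [Finset.sum_eq_single (x ∘ Equiv.swap a b)]
    · rw [if_pos rfl, Rat.cast_one, one_smul]
    · intro y _ hy
      rw [if_neg (Ne.symm hy), Rat.cast_zero, zero_smul]
    · intro h
      exact absurd (Finset.mem_univ _) h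

/-- **Decomposition.** -/
theorem exists_dec (W : Submodule K ((S → J) → M))
    (hW : ∀ f ∈ W, ∀ a b : S, (fun x : S → J => f (x ∘ Equiv.swap a b)) ∈ W)
    {f : (S → J) → M} (hf : opA f ∈ W) :
    ∃ f₀ : (S → J) → M, f - f₀ ∈ W ∧
      (0 < Fintype.card S → Fintype.card S ≠ Fintype.card J → f₀ = 0) ∧
      (Fintype.card S = Fintype.card J → (∀ x, ¬ Bijective x → f₀ x = 0) ∧
        ∀ x a b, a ≠ b → f₀ (x ∘ Equiv.swap a b) = -f₀ x) := by
  obtain ⟨u, hu⟩ := exists_poly (matA S J) matA_symm
  have hWA : ∀ f ∈ W, act K (matA S J) f ∈ W := by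
    intro f hf
    rw [act_matA]
    have h1 : opA f = (((Fintype.card J : ℤ) - 1) * Fintype.card S : ℤ) • f +
        ∑ a, ∑ b ∈ univ.erase a, (fun x : S → J => f (x ∘ Equiv.swap a b)) := by
      funext x
      simp only [opA, Pi.add_apply, Pi.smul_apply, Finset.sum_apply]
    rw [h1]
    refine W.add_mem ?_ (W.sum_mem fun a _ => W.sum_mem fun b _ => hW f hf a b)
    rw [← Int.cast_smul_eq_zsmul K]
    exact W.smul_mem _ hf
  set A := matA S J with hA
  set C := aeval A u with hC
  have hcomm : C * A = A * C := by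
    have h1 : u * X = X * u := mul_comm _ _
    have h2 := congrArg (aeval A) h1
    rwa [map_mul, map_mul, aeval_X] at h2
  set E : Matrix (S → J) (S → J) ℚ := 1 - C * A with hE
  have hAE : A * E = 0 := by
    rw [hE, mul_sub, mul_one, ← mul_assoc, ← hcomm, mul_assoc]
    conv_lhs => lhs; rw [hu]
    rw [sub_self]
  have hcol : ∀ y, ∑ x, (fun x => E x y) x * opA (fun x => E x y) x = 0 := by
    intro y
    have h1 : opA (fun x => E x y) = 0 := by
      rw [← matA_mulVec]
      funext x
      have h2 := congrFun (congrFun hAE x) y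
      rw [Matrix.mul_apply] at h2
      exact h2
    refine Finset.sum_eq_zero fun x _ => ?_
    rw [h1, Pi.zero_apply, mul_zero]
  refine ⟨act K E f, ?_, ?_, ?_⟩
  · rw [hE, act_sub, act_one, sub_sub_cancel, act_mul, act_matA]
    exact act_poly hWA u _ hf
  · intro h0 hn
    funext x
    unfold act
    refine Finset.sum_eq_zero fun y _ => ?_
    have h1 := congrFun (ker_eq_zero h0 hn (hcol y)) x
    rw [show E x y = 0 from h1, Rat.cast_zero, zero_smul]
  · intro hn
    refine ⟨fun x hx => ?_, fun x a b hab => ?_⟩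
    · unfold act
      refine Finset.sum_eq_zero fun y _ => ?_
      have h1 := (ker_alt hn (hcol y)).1 x hx
      rw [show E x y = 0 from h1, Rat.cast_zero, zero_smul]
    · unfold act
      rw [← Finset.sum_neg_distrib]
      refine Finset.sum_congr rfl fun y _ => ?_
      have h1 := (ker_alt hn (hcol y)).2 x a b hab
      rw [show E (x ∘ Equiv.swap a b) y = - E x y from h1, Rat.cast_neg, neg_smul]

end M

end Pool.Agent.Y127
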