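import Pool.Agent.Y127.Dec
import Pool.Agent.TH125.Nod.Fft2

/-!
# The first fundamental theorem for the full orthogonal group and any number of variables

A multilinear form which is invariant under the Lie algebra of a nondegenerate symmetric form and
under one reflection is a combination of products of the forms on pairs of variables, without any
condition on the number of variables.
-/

set_option linter.unusedSectionVars false

open Finset Function

namespace Pool.Agent.Y127

open Pool.Agent.TH125.Nod

universe u v

variable {K : Type u} [Field K] {J : Type} [Fintype J] [DecidableEq J]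
  {M : Type v} [AddCommGroup M] [Module K M]

/-- the forms which vanish if the index `o` occurs an odd number of times -/
def Par (o : J) {S : Type} [Fintype S] (f : (S → J) → M) : Prop :=
  ∀ x : S → J, Odd (occ x o) → f x = 0

section
variable {S : Type} [Fintype S] [DecidableEq S]

theorem sum_split' {N : Type*} [AddCommMonoid N] {a b : S} (hab : a ≠ b) (F : S → N) :
    ∑ x, F x = F a + F b + ∑ x : {x // x ≠ a ∧ x ≠ b}, F x.1 := by
  rw [← Finset.add_sum_erase univ F (Finset.mem_univ a),
    ← Finset.add_sum_erase (univ.erase a) F (Finset.mem_erase.2 ⟨Ne.symm hab, Finset.mem_univ b⟩),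
    add_assoc]
  congr 2
  rw [Finset.sum_subtype]
  intro x
  simp only [Finset.mem_erase, Finset.mem_univ, and_true]
  exact and_comm

theorem occ_ext2 {a b : S} (hab : a ≠ b) (p q o : J) (x : {x // x ≠ a ∧ x ≠ b} → J) :
    occ (ext2 a b p q x) o = (if p = o then 1 else 0) + (if q = o then 1 else 0) + occ x o := by
  have h1 : ∀ {T : Type} [Fintype T] (y : T → J), occ y o = ∑ j, if y j = o then 1 else 0 := by
    intro T _ y
    unfold occ
    rw [Finset.card_filter]
  rw [h1, h1, sum_split' hab]
  rw [ext2_a, ext2_b hab]
  congr 1
  refine Finset.sum_congr rfl fun y _ => ?_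
  rw [ext2_val]

end

variable {Q R : Matrix J J K} (hQs : ∀ a b, Q a b = Q b a) (hQR : Q * R = 1) {o : J}
  (ho : ∀ q, q ≠ o → Q o q = 0)

include hQs hQR ho in
/-- the inverse matrix has the same block form -/
theorem inv_off {q : J} (hq : q ≠ o) : R o q = 0 ∧ R q o = 0 := by
  have hRQ : R * Q = 1 := mul_eq_one_comm.1 hQR
  have h1 : ∀ q, Q o o * R o q = (1 : Matrix J J K) o q := by
    intro q
    rw [← hQR, Matrix.mul_apply, Finset.sum_eq_single o]
    · intro b _ hb
      rw [ho b hb, zero_mul]
    · intro h
      exact absurd (Finset.mem_univ _) h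
  have h2 : ∀ q, R q o * Q o o = (1 : Matrix J J K) q o := by
    intro q
    rw [← hRQ, Matrix.mul_apply, Finset.sum_eq_single o]
    · intro b _ hb
      rw [hQs b o, ho b hb, mul_zero]
    · intro h
      exact absurd (Finset.mem_univ _) h
  have h3 : Q o o ≠ 0 := by
    intro h
    have h4 := h1 o
    rw [h, zero_mul, Matrix.one_apply_eq] at h4
    exact zero_ne_one h4
  constructor
  · have h4 := h1 q
    rw [Matrix.one_apply_ne (Ne.symm hq)] at h4
    exact (mul_eq_zero.1 h4).resolve_left h3
  · have h4 := h2 q
    rw [Matrix.one_apply_ne hq] at h4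
    exact (mul_eq_zero.1 h4).resolve_right h3

/-- the contraction, one block -/
abbrev con1 {S : Type} [DecidableEq S] (R : Matrix J J K) (a b : S)
    (f : (S → J) → M) : ({x // x ≠ a ∧ x ≠ b} → J) → M :=
  con (fun _ : J => ()) R () a b f

theorem con1_apply {S : Type} [DecidableEq S] (R : Matrix J J K) (a b : S)
    (f : (S → J) → M) (x : {x // x ≠ a ∧ x ≠ b} → J) :
    con1 R a b f x = ∑ p, ∑ q, R p q • f (ext2 a b p q x) := by
  have h : blk (fun _ : J => ()) () = univ := by
    rw [blk, Finset.filter_true_of_mem (fun _ _ => rfl)]
  unfold con1 con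
  rw [h]

include hQs hQR ho in
theorem par_con {S : Type} [Fintype S] [DecidableEq S] {a b : S} (hab : a ≠ b)
    {f : (S → J) → M} (hf : Par o f) : Par o (con1 R a b f) := by
  intro x hx
  rw [con1_apply]
  refine Finset.sum_eq_zero fun p _ => Finset.sum_eq_zero fun q _ => ?_
  by_cases hp : p = o
  · by_cases hq : q = o
    · rw [hf, smul_zero]
      rw [occ_ext2 hab, if_pos hp, if_pos hq]
      rcases hx with ⟨r, hr⟩
      exact ⟨r + 1, by omega⟩
    · rw [hp, (inv_off hQs hQR ho hq).1, zero_smul]
  · by_cases hq : q = o
    · rw [hq, (inv_off hQs hQR ho hp).2, zero_smul]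
    · rw [hf, smul_zero]
      rw [occ_ext2 hab, if_neg hp, if_neg hq, zero_add, zero_add]
      exact hx

include hQs ho in
theorem par_Gen {S : Type} [Fintype S] [DecidableEq S] {f : (S → J) → M}
    (hf : f ∈ Gen (fun _ : J => ()) Q (fun _ : S => ())) : Par o f := by
  unfold Gen at hf
  induction hf using Submodule.span_induction with
  | mem f hf =>
    obtain ⟨m, e, w, rfl⟩ := hf
    intro x hx
    unfold gen
    rw [if_pos (fun _ => rfl)]
    by_contra hne
    have hprod : ∏ l, Q (x (e (l, 0))) (x (e (l, 1))) ≠ 0 := by
      intro h
      rw [h, zero_smul] at hne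
      exact hne rfl
    have h1 : ∀ l, x (e (l, 0)) = o ↔ x (e (l, 1)) = o := by
      intro l
      have h2 := Finset.prod_ne_zero_iff.1 hprod l (Finset.mem_univ _)
      constructor
      · intro h3
        by_contra h4
        rw [h3] at h2
        exact h2 (ho _ h4)
      · intro h3
        by_contra h4
        rw [h3, hQs] at h2
        exact h2 (ho _ h4)
    have h2 : occ x o = ∑ p : Fin m × Fin 2, if x (e p) = o then 1 else 0 := by
      unfold occ
      rw [Finset.card_filter]
      exact (Equiv.sum_comp e (fun j => if x j = o then 1 else 0)).symm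
    rw [h2, Fintype.sum_prod_type] at hx
    have h3 : ∀ l : Fin m, ∑ y : Fin 2, (if x (e (l, y)) = o then 1 else 0) =
        2 * (if x (e (l, 0)) = o then 1 else 0) := by
      intro l
      rw [Fin.sum_univ_two]
      by_cases h4 : x (e (l, 0)) = o
      · rw [if_pos h4, if_pos ((h1 l).1 h4)]
      · rw [if_neg h4, if_neg (fun h5 => h4 ((h1 l).2 h5))]
    rw [Finset.sum_congr rfl fun l _ => h3 l, ← Finset.mul_sum] at hx
    exact (Nat.not_odd_iff_even.2 (even_two_mul _)) hx
  | zero => intro x _; rfl
  | add f g _ _ hf hg => intro x hx; rw [Pi.add_apply, hf x hx, hg x hx, add_zero]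
  | smul r f _ hf => intro x hx; rw [Pi.smul_apply, hf x hx, smul_zero]

include hQR in
/-- the sum of the Casimir identities -/
theorem opA_con {S : Type} [Fintype S] [DecidableEq S] {f : (S → J) → M}
    (hf : Inv (fun _ : J => ()) Q (fun _ => 1) f) :
    opA f = ∑ a, ∑ b ∈ univ.erase a,
      fun x : S → J => Q (x a) (x b) • con1 R a b f (fun y => x y.1) := by
  funext x
  rw [Finset.sum_apply]
  unfold opA
  have h0 : ∀ a : S, ((((Fintype.card J : ℤ)) - 1 : ℤ)) • f x +
      ∑ b ∈ univ.erase a, f (x ∘ Equiv.swap a b) =
      ∑ b ∈ univ.erase a, Q (x a) (x b) • con1 R a b f (fun y => x y.1) := by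
    intro a
    have hfil : (univ.filter fun _ : S => (() : Unit) = ()) = univ :=
      Finset.filter_true_of_mem (fun _ _ => rfl)
    have h1 := cas (κ := fun _ : J => ()) (Q := Q) (R := R) (s := fun _ => 1)
      (fun _ => Or.inl rfl) (fun a b h => absurd rfl h) hQR (c := fun _ : S => ())
      (f := f) (by simpa using hf) (J := x) (fun _ => rfl) (i := ()) (a := a) rfl
    rw [hfil] at h1
    have hblk : (blk (fun _ : J => ()) ()).card = Fintype.card J := by
      rw [blk, Finset.filter_true_of_mem (fun _ _ => rfl), Finset.card_univ]
    rw [hblk] at h1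
    simp only [Int.cast_one, one_smul] at h1
    rw [← Int.cast_smul_eq_zsmul K]
    exact h1
  have h2 : ((((Fintype.card J : ℤ) - 1) * Fintype.card S : ℤ)) • f x =
      ∑ _a : S, ((((Fintype.card J : ℤ)) - 1 : ℤ)) • f x := by
    rw [Finset.sum_const, Finset.card_univ, ← natCast_zsmul, smul_smul, mul_comm]
  rw [h2, ← Finset.sum_add_distrib]
  refine Finset.sum_congr rfl fun a _ => ?_
  rw [h0 a, Finset.sum_apply]

include hQs hQR ho in
/-- **The first fundamental theorem** for the full orthogonal group, any number of variables. -/
theorem fftO [CharZero K] (N : ℕ) : ∀ (S : Type) [Fintype S] [DecidableEq S]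
    (f : (S → J) → M), Fintype.card S = N → Inv (fun _ : J => ()) Q (fun _ => 1) f → Par o f →
    f ∈ Gen (fun _ : J => ()) Q (fun _ : S => ()) := by
  classical
  induction N using Nat.strong_induction_on with
  | _ N ih =>
    intro S _ _ f hN hinv hpar
    rcases isEmpty_or_nonempty S with hS | hS
    · refine Submodule.subset_span ⟨0, Equiv.equivOfIsEmpty _ _, f (fun j => (hS.false j).elim), ?_⟩
      funext J
      unfold gen
      rw [if_pos (fun j => (hS.false j).elim), Finset.univ_eq_empty, Finset.prod_empty, one_smul]
      congr 1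
      funext j
      exact (hS.false j).elim
    · have hA : opA f ∈ Gen (fun _ : J => ()) Q (fun _ : S => ()) := by
        rw [opA_con hQR hinv]
        refine Submodule.sum_mem _ fun a _ => Submodule.sum_mem _ fun b hb => ?_
        have hab : a ≠ b := Ne.symm (Finset.mem_erase.1 hb).1
        have h1 : con1 R a b f ∈ Gen (fun _ : J => ()) Q
            (fun _ : {x // x ≠ a ∧ x ≠ b} => ()) := by
          refine ih (Fintype.card {x // x ≠ a ∧ x ≠ b}) ?_ _ _ rfl ?_
            (par_con hQs hQR ho hab hpar)
          · rw [← hN]
            exact Fintype.card_subtype_lt (x := a) (fun h => h.1 rfl)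
          · have h2 := inv_con (κ := fun _ : J => ()) (Q := Q) (R := R) (s := fun _ => 1)
              (fun _ => Or.inl rfl) (fun a b h => absurd rfl h)
              (fun a b => by rw [Int.cast_one, one_mul]; exact hQs a b) hQR
              (f := f) (by simpa using hinv) (i := ()) hab
            simpa using h2
        have h2 := mul_Gen (fun _ : J => ()) Q (fun _ : S => ()) hab h1
        convert h2 using 1
        funext x
        rw [if_pos (fun _ => rfl)]
      obtain ⟨f₀, h1, h2, h3⟩ := exists_dec (K := K) (Gen (fun _ : J => ()) Q (fun _ : S => ()))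
        (fun g hg a b => by
          have h4 := rho_Gen (K := K) (κ := fun _ : J => ()) (Q := Q) (c := fun _ : S => ())
            (σ := Equiv.swap a b) (fun _ => rfl) hg
          exact h4) hA
      have hf0 : f₀ = 0 := by
        by_cases hc : Fintype.card S = Fintype.card J
        · obtain ⟨h4, -⟩ := h3 hc
          have hpar0 : Par o f₀ := by
            have h5 := par_Gen hQs ho h1
            intro x hx
            have h6 := h5 x hx
            rw [Pi.sub_apply, hpar x hx, zero_sub, neg_eq_zero] at h6
            exact h6
          funext x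
          by_cases hx : Bijective x
          · refine hpar0 x ?_
            have h5 : occ x o = 1 := by
              unfold occ
              rw [Finset.card_eq_one]
              obtain ⟨a, ha⟩ := hx.2 o
              refine ⟨a, ?_⟩
              ext b
              rw [Finset.mem_filter, Finset.mem_singleton]
              constructor
              · rintro ⟨-, hb⟩
                exact hx.1 (hb.trans ha.symm)
              · rintro rfl
                exact ⟨Finset.mem_univ _, ha⟩
            rw [h5]
            exact odd_one
          · exact h4 x hx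
        · exact h2 Fintype.card_pos hc
      rw [hf0, sub_zero] at h1
      exact h1

end Pool.Agent.Y127
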