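import Pool.Agent.TH125.Gal.Tower
import Pool.Agent.Y127.FftO
import Pool.Agent.Y127.Adapt

/-!
# Classes invariant under a group containing the reflection: any number of factors
-/

open CategoryTheory AlgebraicGeometry Finset Function

set_option linter.unusedSectionVars false

universe u v w x

namespace Pool.Agent.Y127

open Pool.Agent.H914 Pool.Agent.H914.VarClass Pool.Agent.H914.VarClass.Obj
  Pool.Agent.H914.WeilCohomology Pool.Agent.H281R3.HT Pool.Agent.W552 Pool.Agent.TH125.Gal

section lin

variable {K : Type u} [Field K] [CharZero K] {T : Type v} [AddCommGroup T] [Module K T]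
  {E : Type w} [AddCommGroup E] [Module K E] {S : Type} [Fintype S] [DecidableEq S]
  {G : Type x} [Group G] {B : T →ₗ[K] T →ₗ[K] K} {ρ : G →* (T →ₗ[K] T)} {σ : G →* (E →ₗ[K] E)}

open Pool.Agent.TH125.Nod

/-- a form killed by the operators is invariant in the sense of the fundamental theorem -/
theorem inv_of_kill {s : K} {h : MultilinearMap K (fun _ : S => T) E}
    (hK : ∀ u v, Kill (rk B v u - s • rk B u v) h) {J : Type} [Fintype J] [DecidableEq J]
    (t : J → T) : Inv (fun _ : J => ()) (Matrix.of fun i j => B (t i) (t j)) (fun _ => s)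
      (fun r : S → J => h fun j => t (r j)) := by
  intro u v _ r
  have h1 := hK (t u) (t v) (fun j => t (r j))
  rw [← h1]
  refine Finset.sum_congr rfl fun j _ => ?_
  have e1 : (rk B (t v) (t u) - s • rk B (t u) (t v)) (t (r j)) =
      B (t v) (t (r j)) • t u - (s * B (t u) (t (r j))) • t v := by
    rw [LinearMap.sub_apply, LinearMap.smul_apply, rk_apply, rk_apply, smul_smul]
  rw [e1, MultilinearMap.map_update_sub, MultilinearMap.map_update_smul,
    MultilinearMap.map_update_smul]
  have e2 : ∀ a, (fun i => t (update r j a i)) = update (fun i => t (r i)) j (t a) := by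
    intro a
    funext i
    by_cases hi : i = j
    · subst hi
      rw [update_self, update_self]
    · rw [update_of_ne hi, update_of_ne hi]
  change B (t v) (t (r j)) • h (fun i => t (update r j u i)) -
    (s * B (t u) (t (r j))) • h (fun i => t (update r j v i)) = _
  rw [e2, e2]

/-- the Gram matrix of a basis is invertible -/
theorem exists_inv_gram [Module.Finite K T] {s : K} (hsy : ∀ x y, B x y = s * B y x)
    (hnd : ∀ x, (∀ y, B x y = 0) → x = 0) {J : Type} [Fintype J] [DecidableEq J]
    (t : Module.Basis J K T) : ∃ R : Matrix J J K, (Matrix.of fun i j => B (t i) (t j)) * R = 1 := by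
  have hBnd : LinearMap.BilinForm.Nondegenerate (LinearMap.flip B) := by
    refine ⟨fun x hx => hnd x fun y => ?_, fun x hx => hnd x fun y => hx y⟩
    rw [hsy, show B y x = 0 from hx y, mul_zero]
  refine ⟨Matrix.of fun j k =>
    t.repr (LinearMap.BilinForm.dualBasis (LinearMap.flip B) hBnd t k) j, ?_⟩
  ext i k
  rw [Matrix.mul_apply, Matrix.one_apply]
  simp only [Matrix.of_apply]
  have h1 := LinearMap.BilinForm.apply_dualBasis_left (B := LinearMap.flip B) hBnd t k i
  rw [LinearMap.flip_apply] at h1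
  rw [← h1]
  conv_rhs => rw [← t.sum_repr (LinearMap.BilinForm.dualBasis (LinearMap.flip B) hBnd t k)]
  rw [map_sum]
  refine Finset.sum_congr rfl fun j _ => ?_
  rw [map_smul, smul_eq_mul, mul_comm]

/-- The number of the factors `δ` in the arguments of an invariant form is even. -/
theorem par_of_refl {h : MultilinearMap K (fun _ : S => T) E} {f : T → T}
    (hf : ∀ v : S → T, h (fun j => f (v j)) = h v) {J : Type} [Fintype J] [DecidableEq J]
    {t : J → T} {o : J} (ho : f (t o) = -t o) (ht : ∀ q, q ≠ o → f (t q) = t q) :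
    Par o (fun r : S → J => h fun j => t (r j)) := by
  intro r hr
  have h1 := hf fun j => t (r j)
  have h2 : (fun j => f (t (r j))) = fun j => (if r j = o then (-1 : K) else 1) • t (r j) := by
    funext j
    by_cases hj : r j = o
    · rw [if_pos hj, hj, ho, neg_one_smul]
    · rw [if_neg hj, ht _ hj, one_smul]
  rw [h2, MultilinearMap.map_smul_univ] at h1
  have h3 : ∏ j, (if r j = o then (-1 : K) else 1) = -1 := by
    rw [Finset.prod_ite, Finset.prod_const, Finset.prod_const_one, mul_one]
    exact hr.neg_one_pow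
  rw [h3, neg_one_smul] at h1
  have h4 : (2 : K) • (h fun j => t (r j)) = 0 := by
    rw [two_smul]
    nth_rewrite 1 [← h1]
    exact neg_add_cancel _
  exact (smul_eq_zero.1 h4).resolve_left two_ne_zero

end lin

variable {k : Type u} [Field k] {𝒱 : VarClass k} {ops : CycleOps 𝒱}
  {W : WeilCohomology.{u, v} ops}

/-- The Picard-Lefschetz formula on the whole cohomology, with a transcendental vanishing cycle. -/
def PLFull (W : WeilCohomology.{u, v} ops) (X : 𝒱.Obj) (f : W.H X → W.H X) : Prop :=
  ∃ δ ∈ transcendental W X, δ ≠ 0 ∧ ∃ c : W.K, c ≠ 0 ∧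
    ∀ a, f a = a + (c * W.tr X (δ * a)) • δ

theorem PLFull.pl {X : 𝒱.Obj} {f : W.H X → W.H X} (h : PLFull W X f) :
    PicardLefschetz W X f := by
  obtain ⟨δ, h1, h2, c, h3, h4⟩ := h
  exact ⟨δ, h1, h2, c, h3, fun t _ => h4 t⟩

section

variable {P : Polarized 𝒱} {n : ℕ} {Z : 𝒱.Obj} {s : SB W P.X}
  {b : Module.Basis (Fin (n + 1) → Fin s.NC ⊕ Fin s.NT) W.K (W.H (nest ops n fun _ => P).X)}
  (hb : ∀ r, b r = mono (prj ops n fun _ => P) fun p => s.e (r p))
  {Γ : Type w} [Group Γ] {χ : Γ →* W.Kˣ} {ρ : Γ →* (W.H P.X ≃ₐ[W.K] W.H P.X)}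
  {τ : Γ →* (W.H Z ≃ₐ[W.K] W.H Z)}
  {υ : Γ →* (W.H ((nest ops n fun _ => P).X.prod Z) ≃ₐ[W.K]
    W.H ((nest ops n fun _ => P).X.prod Z))}

include hb in
/-- exact invariance -/
theorem hml_fix (hG : IsGalois W χ P.X ρ) (hP : IsPowAct W P n Z ρ τ υ) {g : Γ} (hχ : χ g = 1)
    (hτ : τ g = 1) {c : W.H ((nest ops n fun _ => P).X.prod Z)} (hc : υ g c = c)
    (v : Fin (n + 1) → W.H P.X) : hml s.e b c (fun p => ρ g (v p)) = hml s.e b c v := by
  have h1 := hml_equiv hb (bil_act hG g) (hP g).1 (hP g).2 c v
  rw [hc, hχ, hτ, Units.val_one, one_pow, one_pow, one_smul] at h1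
  exact h1

include hb in
theorem hS_fix (hG : IsGalois W χ P.X ρ) (hP : IsPowAct W P n Z ρ τ υ) {g : Γ} (hχ : χ g = 1)
    (hτ : τ g = 1) {c : W.H ((nest ops n fun _ => P).X.prod Z)} (hc : υ g c = c)
    (hC : ∀ i, ρ g (s.uC i) = (s.uC i : W.H P.X)) (c₀ : Fin (n + 1) → Option (Fin s.NC))
    (v : Free c₀ → transcendental W P.X) :
    hS s b c c₀ (fun j => rhoT hG g (v j)) = hS s b c c₀ v := by
  rw [hS_apply, hS_apply]
  conv_rhs => rw [← hml_fix hb hG hP hχ hτ hc]
  congr 1
  funext p
  by_cases h : c₀ p = none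
  · rw [dif_pos h, dif_pos h, rhoT_apply]
  · obtain ⟨i, hi⟩ := Option.ne_none_iff_exists'.1 h
    rw [dif_neg h, dif_neg h, fixv_some hi, hC]

include hb in
/-- **The coordinates at the free positions**, even dimension, any number of factors. -/
theorem gen_free_exact (hDX : HomEqNum W P.X) (hmid : transcendental W P.X ≤ W.gr P.X P.X.dim)
    (hG : IsGalois W χ P.X ρ) (hP : IsPowAct W P n Z ρ τ υ)
    (hirr : StronglyIrreducible ρ (transcendental W P.X)) {g : Γ} (hχ : χ g = 1) (hτ : τ g = 1)
    (heven : Even P.X.dim) (hK : FewRoots W.K)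
    {δ : W.H P.X} (hδ : δ ∈ transcendental W P.X) (hδ0 : δ ≠ 0) {x : W.K} (hx : x ≠ 0)
    (hgx : ∀ a, ρ g a = a + (x * W.tr P.X (δ * a)) • δ) {o : Fin s.NT}
    (ho : (s.uT o : W.H P.X) = δ) (hoq : ∀ q, q ≠ o → bil W P.X δ (s.uT q) = 0)
    (hrefl : ρ g δ = -δ)
    {c : W.H ((nest ops n fun _ => P).X.prod Z)} {j : ℕ} {Δ : Subgroup Γ} (hΔ : Δ.FiniteIndex)
    (hc : ∀ g ∈ Δ, υ g c = (χ g : W.K) ^ j • c) (hgΔ : g ∈ Δ)
    (c₀ : Fin (n + 1) → Option (Fin s.NC)) :
    (fun r : Free c₀ → Fin s.NT => hml s.e b c fun p => s.es (comb c₀ r p)) ∈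
      TH125.Nod.Gen (fun _ : Fin s.NT => ()) (Matrix.of fun i j => bil W P.X (s.uT i) (s.uT j))
        (fun _ : Free c₀ => ()) := by
  have hsy : ∀ a b : transcendental W P.X, rform W P.X (transcendental W P.X) a b =
      ((1 : ℤ) : W.K) * rform W P.X (transcendental W P.X) b a := by
    intro a b
    rw [rform_apply, rform_apply, trans_symm hmid a.2 b.2, heven.neg_one_pow, Int.cast_one]
  have heq : (fun r : Free c₀ → Fin s.NT => hS s b c c₀ fun j => s.uT (r j)) =
      fun r : Free c₀ → Fin s.NT => hml s.e b c fun p => s.es (comb c₀ r p) := by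
    funext r
    exact hS_comb c c₀ r
  have hgc : υ g c = c := by
    rw [hc g hgΔ, hχ, Units.val_one, one_pow, one_smul]
  have hC : ∀ i, ρ g (s.uC i) = (s.uC i : W.H P.X) := by
    intro i
    rw [hgx, ← bil_apply, trans_alg hδ (s.uC i).2, mul_zero, zero_smul, add_zero]
  have hkill : ∀ u v, Kill (rk (rform W P.X (transcendental W P.X)) v u -
      (1 : W.K) • rk (rform W P.X (transcendental W P.X)) u v) (hS s b c c₀) := by
    by_cases hdim : 2 ≤ Module.finrank W.K (transcendental W P.X)
    · intro u v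
      have h1 := (all_mem (S := Free c₀) (s := 1)
        (μ := fun g => (χ g : W.K) ^ P.X.dim) (B := rform W P.X (transcendental W P.X))
        (Or.inl rfl) hsy
        (trans_nondeg hDX) (fun g => pow_ne_zero _ (Units.ne_zero _))
        (fun g a b => bil_act hG g a b) (SI_rhoT hG hirr) (g := g) (δ := ⟨δ, hδ⟩) (c := x)
        (fun h => hδ0 (congrArg Subtype.val h)) hx
        (fun t => Subtype.ext (hgx t))
        (by rw [hχ, Units.val_one, one_pow])
        (σ := twist (lamb χ s c₀ j) τ)
        (by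
          apply LinearMap.ext
          intro z
          rw [twist_apply, lamb_apply, hχ, hτ]
          simp)
        (fun _ => ⟨hK, hdim⟩) u v).2 _ (hS_eqv hb hG hP hΔ hc c₀)
      rw [Int.cast_one] at h1
      exact h1
    · intro u v
      have h1 : ∀ y : transcendental W P.X, ∃ a : W.K, y = a • s.uT o := by
        intro y
        have h2 : Fintype.card (Fin s.NT) ≤ 1 := by
          rw [← Module.finrank_eq_card_basis s.uT]
          omega
        have h3 := Fintype.card_le_one_iff_subsingleton.1 h2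
        refine ⟨s.uT.repr y o, ?_⟩
        conv_lhs => rw [← s.uT.sum_repr y]
        rw [Finset.sum_eq_single o]
        · intro q _ hq
          exact absurd (Subsingleton.elim q o) hq
        · intro h
          exact absurd (Finset.mem_univ _) h
      obtain ⟨a, rfl⟩ := h1 u
      obtain ⟨a', rfl⟩ := h1 v
      have h4 : rk (rform W P.X (transcendental W P.X)) (a' • s.uT o) (a • s.uT o) -
          (1 : W.K) • rk (rform W P.X (transcendental W P.X)) (a • s.uT o) (a' • s.uT o) = 0 := by
        apply LinearMap.ext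
        intro y
        rw [LinearMap.sub_apply, LinearMap.smul_apply, rk_apply, rk_apply, map_smul, map_smul,
          LinearMap.smul_apply, LinearMap.smul_apply, one_smul, LinearMap.zero_apply, smul_smul,
          smul_smul, smul_eq_mul, smul_eq_mul]
        rw [show a' * (rform W P.X (transcendental W P.X)) (s.uT o) y * a =
          a * (rform W P.X (transcendental W P.X)) (s.uT o) y * a' by ring, sub_self]
      rw [h4]
      intro y
      refine Finset.sum_eq_zero fun j _ => ?_
      rw [LinearMap.zero_apply]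
      exact (hS s b c c₀).map_coord_zero j (update_self _ _ _)
  rw [← heq]
  obtain ⟨R, hR⟩ := exists_inv_gram hsy (trans_nondeg hDX) s.uT
  refine fftO (fun a b => ?_) hR (o := o) (fun q hq => ?_) (Fintype.card (Free c₀)) (Free c₀) _ rfl
    (inv_of_kill hkill _) ?_
  · have h1 := hsy (s.uT a) (s.uT b)
    rw [Int.cast_one, one_mul] at h1
    exact h1
  · rw [Matrix.of_apply, rform_apply, ho]
    exact hoq q hq
  · refine par_of_refl (f := rhoT hG g) (hS_fix hb hG hP hχ hτ hgc hC c₀) ?_ ?_
    · apply Subtype.ext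
      rw [rhoT_apply, ho, hrefl, Submodule.coe_neg, ho]
    · intro q hq'
      apply Subtype.ext
      rw [rhoT_apply, hgx, ← bil_apply, hoq q hq', mul_zero, zero_smul, add_zero]

end

end Pool.Agent.Y127
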