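import Pool.Agent.TH125.Gal.Pub

/-!
# Nodal families, towers with arbitrary exponents and the Tate conjecture over a given field
-/

open CategoryTheory AlgebraicGeometry

universe u v w

namespace Pool.Agent.Y127

section Alg

variable {K : Type*} [Field K] {A : Type*} [Ring A] [Algebra K A] {Γ : Type*} [Group Γ]

/-- `g` acts on the whole cohomology `A` by the Picard-Lefschetz formula `a ↦ a + c tr(δ a) δ`,
where `c` and the vanishing cycle `δ ∈ T` are not zero. -/
def PLAll (tr : A →ₗ[K] K) (T : Submodule K A) (ρ : Γ →* (A ≃ₐ[K] A)) (g : Γ) : Prop :=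
  ∃ δ ∈ T, δ ≠ 0 ∧ ∃ c : K, c ≠ 0 ∧ ∀ a, ρ g a = a + (c * tr (δ * a)) • δ

/-- All elements `c` of `gr (2 * j)` such that `ρ g c = χ g ^ j • c` for all `g ∈ Δ` are linear
combinations of elements of `C j` with the same property, for all `j`. -/
def TateOverAct (χ : Γ →* Kˣ) (Δ : Subgroup Γ) (gr : ℕ → Submodule K A) (C : ℕ → Set A)
    (ρ : Γ →* (A ≃ₐ[K] A)) : Prop :=
  ∀ j, ∀ c ∈ gr (2 * j), (∀ g ∈ Δ, ρ g c = (χ g : K) ^ j • c) →
    c ∈ Submodule.span K {a | a ∈ C j ∧ ∀ g ∈ Δ, ρ g a = (χ g : K) ^ j • a}

end Alg

open Pool.Agent.H914 Pool.Agent.H914.VarClass Pool.Agent.H914.VarClass.Obj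
  Pool.Agent.H914.WeilCohomology Pool.Agent.TH125.Gal

variable {k : Type u} [Field k] {𝒱 : VarClass k} {ops : CycleOps 𝒱}
  {W : WeilCohomology.{u, v} ops} {Γ : Type w} [Group Γ]

/-- The action on the cohomology of `Y` has the formal properties of an action of a Galois
group. -/
def GaloisType (χ : Γ →* W.Kˣ) (Y : GVar W Γ) : Prop :=
  IsGaloisAct χ (W.gr Y.X) Y.X.dim (W.tr Y.X) (algClasses W Y.X) Y.act

/-- `Γ` acts on the cohomology of `X` like a Galois group; numerical and homological equivalence
coincide for `X`; the transcendental cohomology is in the middle degree and irreducible under all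
subgroups of finite index; and `g` acts on the cohomology by the Picard-Lefschetz formula with a
transcendental vanishing cycle. -/
structure Nodal (χ : Γ →* W.Kˣ) (X : GVar W Γ) (g : Γ) : Prop where
  galois : GaloisType χ X
  homEqNum : HomEqNum W X.X
  middle : transcendental W X.X ≤ W.gr X.X X.X.dim
  irreducible : IrredAct X.act (transcendental W X.X)
  picardLefschetz : PLAll (W.tr X.X) (transcendental W X.X) X.act g

/-- The `X i` satisfy `Nodal` with the elements `g i`, which act by `χ`, and trivially on the
cohomology of `Z` and of the `X j`, `j ≠ i`; if some `X i` has even dimension the coefficient field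
contains only finitely many `ζ + ζ⁻¹`, `ζ` a root of unity. -/
structure PLFamily (χ : Γ →* W.Kˣ) {ι : Type} (X : ι → GVar W Γ) (Z : GVar W Γ) (g : ι → Γ) :
    Prop where
  nodal : ∀ i, Nodal χ (X i) (g i)
  twist : ∀ i, χ (g i) = 1
  triv_base : ∀ i, TrivAct Z.act (g i)
  triv_other : ∀ i j, j ≠ i → TrivAct (X j).act (g i)
  few : (∃ i, Even (X i).X.dim) → FewRoots W.K

/-- The varieties `Y = X_1^(n_1) × (X_2^(n_2) × ( ⋯ × Z))`, where the `X_i` are pairwise different
members of the family `X` and `n_i ≥ 1`. Here `S` is the set of the indices which are used, and `L`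
is a set of indices which contains all `i` such that `X_i` has even dimension and `n_i` is not less
than the dimension of the transcendental cohomology of `X_i`. -/
inductive LTower {ι : Type} (X : ι → GVar W Γ) (Z : GVar W Γ) :
    Set ι → Set ι → GVar W Γ → Prop
  | base : LTower X Z ∅ ∅ Z
  | small {S L Y Y'} (i : ι) (n : ℕ) : LTower X Z S L Y → i ∉ S →
      (Even (X i).X.dim → n + 1 < transRank W (X i).X) → IsPowProd (X i) n Y Y' →
      LTower X Z (insert i S) L Y'
  | large {S L Y Y'} (i : ι) (n : ℕ) : LTower X Z S L Y → i ∉ S → IsPowProd (X i) n Y Y' →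
      LTower X Z (insert i S) (insert i L) Y'

/-- Let `Δ` be the Galois group of the field `F`. This is part (b) of the Tate conjecture for `Y`
over `F`: for all `j`, every class in `H^(2j)(Y)` which is multiplied by `χ g ^ j` by all `g ∈ Δ` is
a linear combination of classes of algebraic cycles of codimension `j` with the same property. -/
def TateOver (χ : Γ →* W.Kˣ) (Δ : Subgroup Γ) (Y : GVar W Γ) : Prop :=
  TateOverAct χ Δ (W.gr Y.X) (algClasses W Y.X) Y.act

end Pool.Agent.Y127
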