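import Pool.Agent.Y127.Exact

/-!
# The induction step for classes invariant under a given subgroup
-/

open CategoryTheory AlgebraicGeometry Finset Function

set_option linter.unusedSectionVars false

universe u v w x

namespace Pool.Agent.Y127

open Pool.Agent.H914 Pool.Agent.H914.VarClass Pool.Agent.H914.VarClass.Obj
  Pool.Agent.H914.WeilCohomology Pool.Agent.H281R3.HT Pool.Agent.W552 Pool.Agent.TH125.Gal

variable {k : Type u} [Field k] {𝒱 : VarClass k} {ops : CycleOps 𝒱}
  {W : WeilCohomology.{u, v} ops}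

/-- The classes of degree `2 j` on which all `g ∈ Δ` act by `χ g ^ j` are combinations of classes of
algebraic cycles. -/
def TC (W : WeilCohomology.{u, v} ops) {Γ : Type w} [Group Γ] (χ : Γ →* W.Kˣ) (Δ : Subgroup Γ)
    (X : 𝒱.Obj) (ρ : Γ →* (W.H X ≃ₐ[W.K] W.H X)) : Prop :=
  ∀ j, ∀ c ∈ W.gr X (2 * j), (∀ g ∈ Δ, ρ g c = (χ g : W.K) ^ j • c) →
    c ∈ Submodule.span W.K (algClasses W X j)

section

variable {P : Polarized 𝒱} {n : ℕ} {Z : 𝒱.Obj} {s : SB W P.X}
  {b : Module.Basis (Fin (n + 1) → Fin s.NC ⊕ Fin s.NT) W.K (W.H (nest ops n fun _ => P).X)}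
  (hb : ∀ r, b r = mono (prj ops n fun _ => P) fun p => s.e (r p))
  {Γ : Type w} [Group Γ] {χ : Γ →* W.Kˣ} {ρ : Γ →* (W.H P.X ≃ₐ[W.K] W.H P.X)}
  {τ : Γ →* (W.H Z ≃ₐ[W.K] W.H Z)}
  {υ : Γ →* (W.H ((nest ops n fun _ => P).X.prod Z) ≃ₐ[W.K]
    W.H ((nest ops n fun _ => P).X.prod Z))}

include hb in
/-- classes whose coordinates are generated by the form are external products -/
theorem mem_Tgt_of_gen (hmid : transcendental W P.X ≤ W.gr P.X P.X.dim)
    {c : W.H ((nest ops n fun _ => P).X.prod Z)}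
    (h : ∀ c₀ : Fin (n + 1) → Option (Fin s.NC),
      (fun r : Free c₀ → Fin s.NT => hml s.e b c fun p => s.es (comb c₀ r p)) ∈
      TH125.Nod.Gen (fun _ : Fin s.NT => ())
        (Matrix.of fun i j => bil W P.X (s.uT i) (s.uT j)) (fun _ : Free c₀ => ())) :
    c ∈ Tgt s n Z := by
  rw [expand b c, sum_patterns]
  refine Submodule.sum_mem _ fun c₀ _ => ?_
  have h1 := h c₀
  have h2 : ∀ F ∈ TH125.Nod.Gen (fun _ : Fin s.NT => ())
      (Matrix.of fun i j => bil W P.X (s.uT i) (s.uT j)) (fun _ : Free c₀ => ()),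
      ∑ r : Free c₀ → Fin s.NT, W.map (fst _ Z) (b (comb c₀ r)) * W.map (snd _ Z) (F r : W.H Z) ∈
        Tgt s n Z := by
    intro F hF
    induction hF using Submodule.span_induction with
    | mem F hF =>
      obtain ⟨m, e, w, rfl⟩ := hF
      obtain ⟨ε, S, i, x, hx, h3⟩ := mq_sum (s := s) (π := prj ops n fun _ => P) hmid e
      have h4 : ∑ r : Free c₀ → Fin s.NT, W.map (fst _ Z) (b (comb c₀ r)) *
          W.map (snd _ Z) (TH125.Nod.gen (fun _ : Fin s.NT => ())
            (Matrix.of fun i j => bil W P.X (s.uT i) (s.uT j)) (fun _ : Free c₀ => ()) e w r) =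
          (ε : W.K) • (W.map (fst _ Z) x * W.map (snd _ Z) w) := by
        rw [← smul_mul_assoc, ← map_smul, ← h3, map_sum, Finset.sum_mul]
        refine Finset.sum_congr rfl fun r _ => ?_
        rw [TH125.Nod.gen, if_pos (fun _ => rfl), map_smul, map_smul, mul_smul_comm,
          smul_mul_assoc, hb]
        rfl
      rw [h4]
      exact Submodule.smul_mem _ _ (Submodule.subset_span ⟨S, i, x, w, hx, rfl⟩)
    | zero =>
      simp only [Pi.zero_apply, map_zero, mul_zero, Finset.sum_const_zero]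
      exact Submodule.zero_mem _
    | add F F' _ _ hF hF' =>
      simp only [Pi.add_apply, map_add, mul_add, Finset.sum_add_distrib]
      exact Submodule.add_mem _ hF hF'
    | smul x F _ hF =>
      simp only [Pi.smul_apply, map_smul, mul_smul_comm]
      rw [← Finset.smul_sum]
      exact Submodule.smul_mem _ _ hF
  have h3 := h2 _ h1
  simp only [coord_eq hb]
  exact h3

/-- the subgroup acting by the expected characters on the algebraic basis -/
def fixS (χ : Γ →* W.Kˣ) (ρ : Γ →* (W.H P.X ≃ₐ[W.K] W.H P.X)) (s : SB W P.X) : Subgroup Γ where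
  carrier := {g | ∀ i, ρ g (s.bC i) = (χ g : W.K) ^ s.jC i • (s.bC i : W.H P.X)}
  one_mem' := by
    intro i
    rw [map_one, map_one, Units.val_one, one_pow, one_smul]
    rfl
  mul_mem' := by
    intro g g' hg hg' i
    rw [map_mul, AlgEquiv.mul_apply, hg' i, map_smul, hg i, smul_smul, map_mul, Units.val_mul,
      mul_pow, mul_comm]
  inv_mem' := by
    intro g hg i
    have hinv : ρ g⁻¹ (ρ g (s.bC i)) = s.bC i := by
      rw [← AlgEquiv.mul_apply, ← map_mul, inv_mul_cancel, map_one]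
      rfl
    rw [hg i, map_smul] at hinv
    conv_rhs => rw [← hinv]
    rw [smul_smul, ← mul_pow, map_inv χ, Units.val_inv_eq_inv_val,
      inv_mul_cancel₀ (Units.ne_zero _), one_pow, one_smul]

theorem fixS_finite (hG : IsGalois W χ P.X ρ) (s : SB W P.X) : (fixS χ ρ s).FiniteIndex := by
  obtain ⟨Δ', hΔ', hfix⟩ := exists_fix hG s
  exact Subgroup.finiteIndex_of_le (H := Δ') fun g hg => hfix g hg

/-- **The induction step**, from the structure of the class. -/
theorem step_of_Tgt (hDX : HomEqNum W P.X) (hmid : transcendental W P.X ≤ W.gr P.X P.X.dim)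
    (hG : IsGalois W χ P.X ρ) (hP : IsPowAct W P n Z ρ τ υ) (s : SB W P.X) {Δ : Subgroup Γ}
    (hΔ : Δ.FiniteIndex) {j : ℕ} {c : W.H ((nest ops n fun _ => P).X.prod Z)}
    (hcj : c ∈ W.gr _ (2 * j)) (hc : ∀ g ∈ Δ, υ g c = (χ g : W.K) ^ j • c)
    (h1 : c ∈ Tgt s n Z)
    (hT : ∀ Δ' : Subgroup Γ, Δ'.FiniteIndex →
      (∀ g ∈ Δ, ρ g = 1 → χ g = 1 → g ∈ Δ') → TC W χ Δ' Z τ) :
    c ∈ Submodule.span W.K (algClasses W _ j) := by
  obtain ⟨N, m, i, φ, hm, hφ, hexp⟩ := exists_expansion s n Z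
  have h2 := hexp c h1
  -- uniqueness
  have huni : ∀ (x : Fin N → W.H Z) (l : Fin N),
      ctr (φ l) (∑ l', W.map (fst _ Z) (m l') * W.map (snd _ Z) (x l')) = x l := by
    intro x l
    rw [map_sum, Finset.sum_eq_single l]
    · rw [ctr_apply, hφ, if_pos rfl, one_smul]
    · intro l' _ hl
      rw [ctr_apply, hφ, if_neg hl, zero_smul]
    · intro h
      exact absurd (Finset.mem_univ _) h
  set x : Fin N → W.H Z := fun l => ctr (φ l) c with hx
  -- degrees
  have hdeg : ∀ l, x l = if 2 * i l ≤ 2 * j then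
      proj (W.isInternal Z) (2 * j - 2 * i l) (x l) else 0 := by
    intro l
    have h3 : c = ∑ l', W.map (fst _ Z) (m l') * W.map (snd _ Z)
        (if 2 * i l' ≤ 2 * j then proj (W.isInternal Z) (2 * j - 2 * i l') (x l') else 0) := by
      conv_lhs => rw [← proj_same (W.isInternal _) hcj, h2]
      rw [map_sum]
      refine Finset.sum_congr rfl fun l' _ => ?_
      obtain ⟨S, hS⟩ := hm l'
      rw [proj_ext (hS.gr hmid)]
      by_cases h : 2 * i l' ≤ 2 * j
      · rw [if_pos h, if_pos h]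
      · rw [if_neg h, if_neg h, map_zero, mul_zero]
    conv_lhs => rw [hx]
    beta_reduce
    rw [h3]
    exact huni _ l
  -- semi-invariance
  have hfix : ∀ g ∈ fixS χ ρ s, ∀ i, ρ g (s.bC i) = (χ g : W.K) ^ s.jC i • (s.bC i : W.H P.X) :=
    fun g hg => hg
  have hact : ∀ g ∈ Δ ⊓ fixS χ ρ s, ∀ l,
      (χ g : W.K) ^ i l • τ g (x l) = (χ g : W.K) ^ j • x l := by
    intro g hg l
    have h3 : υ g c = ∑ l', W.map (fst _ Z) (m l') * W.map (snd _ Z)
        ((χ g : W.K) ^ i l' • τ g (x l')) := by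
      conv_lhs => rw [h2]
      rw [map_sum]
      refine Finset.sum_congr rfl fun l' _ => ?_
      obtain ⟨S, hS⟩ := hm l'
      rw [map_mul, mq_act hmid hG hP (hfix g hg.2) hS, (hP g).2, map_smul, smul_mul_assoc,
        mul_smul_comm]
    have h4 := huni (fun l' => (χ g : W.K) ^ i l' • τ g (x l')) l
    rw [← h3, hc g hg.1, map_smul] at h4
    exact h4.symm
  have hfin : (Δ ⊓ fixS χ ρ s).FiniteIndex := by
    have := fixS_finite hG s
    infer_instance
  have hin : ∀ g ∈ Δ, ρ g = 1 → χ g = 1 → g ∈ Δ ⊓ fixS χ ρ s := by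
    intro g hg hρg hχg
    refine ⟨hg, fun i => ?_⟩
    rw [hρg, hχg, Units.val_one, one_pow, one_smul]
    rfl
  have halg : ∀ l, x l ∈ algSpan W Z := by
    intro l
    by_cases h : 2 * i l ≤ 2 * j
    · have h3 := hdeg l
      rw [if_pos h] at h3
      have h4 : x l ∈ W.gr Z (2 * (j - i l)) := by
        rw [h3, show 2 * (j - i l) = 2 * j - 2 * i l by omega]
        exact proj_mem _ _ _
      have h5 := hT _ hfin hin (j - i l) (x l) h4 fun g hg => ?_
      · exact Submodule.span_mono (Set.subset_iUnion _ _) h5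
      · have h6 := hact g hg l
        have h7 : (χ g : W.K) ^ j = (χ g : W.K) ^ i l * (χ g : W.K) ^ (j - i l) := by
          rw [← pow_add]
          congr 1
          omega
        rw [h7, mul_smul] at h6
        exact smul_right_injective _ (pow_ne_zero _ (Units.ne_zero (χ g))) h6
    · have h3 := hdeg l
      rw [if_neg h] at h3
      rw [h3]
      exact Submodule.zero_mem _
  refine algSpan_gr ?_ hcj
  rw [h2]
  refine Submodule.sum_mem _ fun l _ => ?_
  obtain ⟨S, hS⟩ := hm l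
  exact algSpan_mul (algSpan_map _ (hS.alg hDX hmid)) (algSpan_map _ (halg l))

/-- **The exact induction step.** -/
theorem step_exact (hDX : HomEqNum W P.X) (hmid : transcendental W P.X ≤ W.gr P.X P.X.dim)
    (hG : IsGalois W χ P.X ρ) (hP : IsPowAct W P n Z ρ τ υ)
    (hirr : StronglyIrreducible ρ (transcendental W P.X)) {g : Γ} (hχ : χ g = 1) (hτ : τ g = 1)
    (hPL : PLFull W P.X (ρ g)) (hK : Even P.X.dim → FewRoots W.K) {Δ : Subgroup Γ}
    (hΔ : Δ.FiniteIndex)
    (hn : Even P.X.dim → g ∈ Δ ∨ n + 1 < Module.finrank W.K (transcendental W P.X))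
    (hT : ∀ Δ' : Subgroup Γ, Δ'.FiniteIndex →
      (∀ g ∈ Δ, ρ g = 1 → χ g = 1 → g ∈ Δ') → TC W χ Δ' Z τ) :
    TC W χ Δ ((nest ops n fun _ => P).X.prod Z) υ := by
  intro j c hcj hc
  by_cases hcase : Even P.X.dim ∧ g ∈ Δ
  · obtain ⟨heven, hgΔ⟩ := hcase
    obtain ⟨δ, hδ, hδ0, x, hx, hgx⟩ := hPL
    -- the vanishing cycle is not isotropic
    have hsy : ∀ a b : transcendental W P.X, bil W P.X a b = bil W P.X b a := by
      intro a b
      rw [trans_symm hmid a.2 b.2, heven.neg_one_pow, one_mul]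
    obtain ⟨y, hy⟩ : ∃ y : transcendental W P.X, bil W P.X δ y ≠ 0 := by
      by_contra hcon
      push Not at hcon
      have h1 := trans_nondeg hDX ⟨δ, hδ⟩ hcon
      exact hδ0 (congrArg Subtype.val h1)
    have h1 := bil_act hG g y y
    rw [hχ, Units.val_one, one_pow, one_mul, hgx, ← bil_apply] at h1
    simp only [map_add, map_smul, LinearMap.add_apply, LinearMap.smul_apply, smul_eq_mul] at h1
    rw [show bil W P.X (y : W.H P.X) δ = bil W P.X δ y from hsy y ⟨δ, hδ⟩] at h1
    have h2 : (x * bil W P.X δ y * bil W P.X δ y) * (2 + x * bil W P.X δ δ) = 0 := by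
      linear_combination h1
    have h3 : 2 + x * bil W P.X δ δ = 0 :=
      (mul_eq_zero.1 h2).resolve_left (mul_ne_zero (mul_ne_zero hx hy) hy)
    have hq : bil W P.X δ δ ≠ 0 := by
      intro h
      rw [h, mul_zero, add_zero] at h3
      exact two_ne_zero h3
    have hrefl : ρ g δ = -δ := by
      rw [hgx, ← bil_apply, show x * bil W P.X δ δ = -2 by linear_combination h3]
      module
    obtain ⟨N, t, ht0, htq⟩ := exists_adapted (rform W P.X (transcendental W P.X))
      (δ := ⟨δ, hδ⟩) hq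
    obtain ⟨s, hs, hst⟩ := exists_SB_uT hDX t
    obtain ⟨b, hb⟩ := exists_monoBasis (ops := ops) P s.e n
    have ho : (s.uT (Fin.cast hs.symm 0) : W.H P.X) = δ := by
      rw [hst]
      have : Fin.cast hs (Fin.cast hs.symm 0) = 0 := rfl
      rw [this, ht0]
    have hoq : ∀ q, q ≠ Fin.cast hs.symm 0 → bil W P.X δ (s.uT q) = 0 := by
      intro q hq'
      rw [hst]
      refine htq _ fun h4 => hq' ?_
      rw [← h4]
      rfl
    refine step_of_Tgt hDX hmid hG hP s hΔ hcj hc ?_ hT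
    exact mem_Tgt_of_gen hb hmid (gen_free_exact hb hDX hmid hG hP hirr hχ hτ heven (hK heven)
      hδ hδ0 hx hgx ho hoq hrefl hΔ hc hgΔ)
  · obtain ⟨s⟩ := exists_SB hDX
    obtain ⟨b, hb⟩ := exists_monoBasis (ops := ops) P s.e n
    refine step_of_Tgt hDX hmid hG hP s hΔ hcj hc ?_ hT
    refine mem_Tgt hb hDX hmid hG hP hirr hχ hτ hPL.pl (fun he => ⟨hK he, ?_⟩) hΔ hc
    rcases hn he with h | h
    · exact absurd ⟨he, h⟩ hcase
    · exact h

/-- The converse. -/
theorem conv_exact (hDX : HomEqNum W P.X) (h1 : (1 : W.H P.X) ≠ 0)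
    (hP : IsPowAct W P n Z ρ τ υ) {Δ : Subgroup Γ}
    (hT : TC W χ Δ ((nest ops n fun _ => P).X.prod Z) υ) : TC W χ Δ Z τ := by
  intro j c hcj hc
  have h2 := hT j (W.map (snd _ Z) c) (W.map_mem _ hcj) fun g hg => by
    rw [(hP g).2, hc g hg, map_smul]
  obtain ⟨a, ha, ha0⟩ := exists_pt hDX h1
  have h3 : W.push (snd (nest ops n fun _ => P).X Z) (W.map (fst _ Z)
      (mono (prj ops n fun _ => P) fun _ => a) * W.map (snd _ Z) c) ∈ algSpan W Z :=
    algSpan_push _ (algSpan_mul (algSpan_map _ (mono_alg _ fun _ => alg_mem ha))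
      (Submodule.span_mono (Set.subset_iUnion _ j) h2))
  rw [W.push_snd, tr_mono] at h3
  have h4 := Submodule.smul_mem _ (W.tr P.X a ^ (n + 1))⁻¹ h3
  rw [smul_smul, inv_mul_cancel₀ (pow_ne_zero _ ha0), one_smul] at h4
  exact algSpan_gr h4 hcj

end

end Pool.Agent.Y127
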