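import Pool.Agent.Y127.NDefs
import Pool.Agent.Y127.Step
import Pool.Agent.Y127.Avg

/-!
# Towers with arbitrary exponents
-/

open CategoryTheory AlgebraicGeometry Finset

set_option linter.unusedSectionVars false

universe u v w

namespace Pool.Agent.Y127

open Pool.Agent.H914 Pool.Agent.H914.VarClass Pool.Agent.H914.VarClass.Obj
  Pool.Agent.H914.WeilCohomology Pool.Agent.H281R3.HT Pool.Agent.W552 Pool.Agent.TH125.Gal

variable {k : Type u} [Field k] {𝒱 : VarClass k} {ops : CycleOps 𝒱}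
  {W : WeilCohomology.{u, v} ops} {Γ : Type w} [Group Γ] {χ : Γ →* W.Kˣ}

theorem LTower.triv {ι : Type} {X : ι → GVar W Γ} {Z : GVar W Γ} {S L : Set ι} {Y : GVar W Γ}
    (h : LTower X Z S L Y) {g : Γ} (hX : ∀ j ∈ S, TrivAct (X j).act g) (hZ : TrivAct Z.act g) :
    TrivAct Y.act g := by
  induction h with
  | base => exact hZ
  | small i n _ _ _ hP ih =>
    obtain ⟨υ, h1, h2⟩ := hP
    rw [TH125.Gal.trivAct]
    exact TH125.Gal.act_one (isPowAct h1 h2) (TH125.Gal.trivAct.1 (hX i (Set.mem_insert _ _)))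
      (TH125.Gal.trivAct.1 (ih fun j hj => hX j (Set.mem_insert_of_mem _ hj)))
  | large i n _ _ hP ih =>
    obtain ⟨υ, h1, h2⟩ := hP
    rw [TH125.Gal.trivAct]
    exact TH125.Gal.act_one (isPowAct h1 h2) (TH125.Gal.trivAct.1 (hX i (Set.mem_insert _ _)))
      (TH125.Gal.trivAct.1 (ih fun j hj => hX j (Set.mem_insert_of_mem _ hj)))

theorem LTower.sub {ι : Type} {X : ι → GVar W Γ} {Z : GVar W Γ} {S L : Set ι} {Y : GVar W Γ}
    (h : LTower X Z S L Y) : L ⊆ S := by
  induction h with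
  | base => exact subset_rfl
  | small i n _ _ _ _ ih => exact ih.trans (Set.subset_insert _ _)
  | large i n _ _ _ ih => exact Set.insert_subset_insert ih

theorem PLFamily.tc {ι : Type} {X : ι → GVar W Γ} {Z : GVar W Γ} {g : ι → Γ}
    (h : PLFamily χ X Z g) (hZ : TateConjecture χ Z) {S L : Set ι} {Y : GVar W Γ}
    (hY : LTower X Z S L Y) : ∀ Δ : Subgroup Γ, Δ.FiniteIndex → (∀ i ∈ L, g i ∈ Δ) →
      TC W χ Δ Y.X Y.act := by
  induction hY with
  | base => intro Δ hΔ _ j c hcj hc; exact hZ j c hcj ⟨Δ, hΔ, hc⟩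
  | @small S L Y Y' i n hT hi hn hP ih =>
    obtain ⟨υ, h1, h2⟩ := hP
    intro Δ hΔ hL
    refine step_exact (P := ⟨(X i).X, 0⟩) (h.nodal i).homEqNum (h.nodal i).middle (isGalois (h.nodal i).galois)
      (isPowAct h1 h2) (h.nodal i).irreducible (h.twist i) ?_ (h.nodal i).picardLefschetz
      (fun h' => h.few ⟨i, h'⟩) hΔ (fun h' => Or.inr (hn h')) ?_
    · exact trivAct.1 (hT.triv (fun j hjS => h.triv_other i j fun h' => hi (h' ▸ hjS))
        (h.triv_base i))
    · intro Δ' hΔ' hin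
      refine ih Δ' hΔ' fun j hj => hin _ (hL j hj) ?_ (h.twist j)
      exact trivAct.1 (h.triv_other j i fun h' => hi (h' ▸ hT.sub hj))
  | @large S L Y Y' i n hT hi hP ih =>
    obtain ⟨υ, h1, h2⟩ := hP
    intro Δ hΔ hL
    refine step_exact (P := ⟨(X i).X, 0⟩) (h.nodal i).homEqNum (h.nodal i).middle (isGalois (h.nodal i).galois)
      (isPowAct h1 h2) (h.nodal i).irreducible (h.twist i) ?_ (h.nodal i).picardLefschetz
      (fun h' => h.few ⟨i, h'⟩) hΔ (fun _ => Or.inl (hL i (Set.mem_insert _ _))) ?_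
    · exact trivAct.1 (hT.triv (fun j hjS => h.triv_other i j fun h' => hi (h' ▸ hjS))
        (h.triv_base i))
    · intro Δ' hΔ' hin
      refine ih Δ' hΔ' fun j hj => hin _ (hL j (Set.mem_insert_of_mem _ hj)) ?_ (h.twist j)
      exact trivAct.1 (h.triv_other j i fun h' => hi (h' ▸ hT.sub hj))

theorem PLFamily.conv {ι : Type} {X : ι → GVar W Γ} {Z : GVar W Γ} {g : ι → Γ}
    (h : PLFamily χ X Z g) {S L : Set ι} {Y : GVar W Γ}
    (hY : LTower X Z S L Y) {Δ : Subgroup Γ} (hT : TC W χ Δ Y.X Y.act) :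
      TC W χ Δ Z.X Z.act := by
  have hne : ∀ i, (1 : W.H (X i).X) ≠ 0 := by
    intro i h3
    obtain ⟨δ, -, hδ0, -⟩ := (h.nodal i).picardLefschetz
    apply hδ0
    rw [← one_mul δ, h3, zero_mul]
  induction hY with
  | base => exact hT
  | @small S L Y Y' i n _ hi hn hP ih =>
    obtain ⟨υ, h1, h2⟩ := hP
    exact ih (conv_exact (P := ⟨(X i).X, 0⟩) (h.nodal i).homEqNum (hne i) (isPowAct h1 h2) hT)
  | @large S L Y Y' i n _ hi hP ih =>
    obtain ⟨υ, h1, h2⟩ := hP
    exact ih (conv_exact (P := ⟨(X i).X, 0⟩) (h.nodal i).homEqNum (hne i) (isPowAct h1 h2) hT)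

/-- cycles over the field itself -/
theorem tateOver_of_tc {Y : GVar W Γ}
    (hG : GaloisType χ Y)
    {Δ : Subgroup Γ} (h : TC W χ Δ Y.X Y.act) : TateOver χ Δ Y := by
  intro j c hcj hc
  have hu : ∀ g : Γ, (χ g : W.K) ≠ 0 := fun g => Units.ne_zero _
  let θ : Δ →* (W.H Y.X →ₗ[W.K] W.H Y.X) :=
    { toFun := fun g => ((χ g : W.K) ^ j)⁻¹ • (Y.act g).toLinearMap
      map_one' := by
        apply LinearMap.ext
        intro x
        rw [LinearMap.smul_apply]
        simp
      map_mul' := by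
        intro g g'
        apply LinearMap.ext
        intro x
        change ((χ ((g : Γ) * g') : W.K) ^ j)⁻¹ • Y.act ((g : Γ) * g') x =
          ((χ g : W.K) ^ j)⁻¹ • Y.act g (((χ g' : W.K) ^ j)⁻¹ • Y.act g' x)
        rw [map_smul, smul_smul, map_mul, map_mul, Units.val_mul, mul_pow, mul_inv,
          AlgEquiv.mul_apply] }
  have hθ : ∀ (g : Δ) (a : W.H Y.X), θ g a = a ↔ Y.act g a = (χ g : W.K) ^ j • a := by
    intro g a
    change ((χ g : W.K) ^ j)⁻¹ • Y.act g a = a ↔ _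
    rw [inv_smul_eq_iff₀ (pow_ne_zero _ (hu g))]
  have h1 := avg_mem θ (C := algClasses W Y.X j) (alg_zero j) (fun a ha b hb => alg_add ha hb)
    (fun g a ha => by
      obtain ⟨c', hc', h2⟩ := hG.cl_act g j a ha
      have h3 : θ g a = c' := by
        change ((χ g : W.K) ^ j)⁻¹ • Y.act g a = c'
        rw [h2, smul_smul, inv_mul_cancel₀ (pow_ne_zero _ (hu g)), one_smul]
      rwa [h3])
    (fun a ha => by
      obtain ⟨Δ', hΔ', h2⟩ := hG.cl_fix j a ha
      refine ⟨Δ'.subgroupOf Δ, inferInstance, fun g hg => (hθ g a).2 (h2 g ?_)⟩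
      exact hg)
    (h j c hcj hc) (fun g => (hθ g c).2 (hc g g.2))
  refine Submodule.span_mono ?_ h1
  rintro a ⟨ha, ha'⟩
  exact ⟨ha, fun g hg => (hθ ⟨g, hg⟩ a).1 (ha' ⟨g, hg⟩)⟩

theorem tc_of_tateOver {Y : GVar W Γ} {Δ : Subgroup Γ} (h : TateOver χ Δ Y) :
    TC W χ Δ Y.X Y.act := fun j c hcj hc =>
  Submodule.span_mono (fun _ ha => ha.1) (h j c hcj hc)

/-- **The Tate conjecture over a given field for towers with arbitrary exponents.** -/
theorem tate_over_iff {ι : Type} {X : ι → GVar W Γ} {Z : GVar W Γ} {g : ι → Γ}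
    (h : PLFamily χ X Z g) {S L : Set ι} {Y : GVar W Γ} (hY : LTower X Z S L Y)
    (hG : GaloisType χ Y) :
    (∀ Δ : Subgroup Γ, Δ.FiniteIndex → (∀ i ∈ L, g i ∈ Δ) → TateOver χ Δ Y) ↔
      TateConjecture χ Z := by
  constructor
  · rintro h1 j c hcj ⟨Δ, hΔ, hc⟩
    -- enlarge the group
    let Δ' : Subgroup Γ :=
      { carrier := {γ | Z.act γ c = (χ γ : W.K) ^ j • c}
        one_mem' := by
          change Z.act 1 c = (χ 1 : W.K) ^ j • c
          rw [map_one, map_one, Units.val_one, one_pow, one_smul]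
          rfl
        mul_mem' := by
          intro γ γ' hγ hγ'
          change Z.act (γ * γ') c = (χ (γ * γ') : W.K) ^ j • c
          have e1 : Z.act γ c = (χ γ : W.K) ^ j • c := hγ
          have e2 : Z.act γ' c = (χ γ' : W.K) ^ j • c := hγ'
          rw [map_mul, AlgEquiv.mul_apply, e2, map_smul, e1, smul_smul, map_mul, Units.val_mul,
            mul_pow, mul_comm]
        inv_mem' := by
          intro γ hγ
          change Z.act γ⁻¹ c = (χ γ⁻¹ : W.K) ^ j • c
          have e1 : Z.act γ c = (χ γ : W.K) ^ j • c := hγ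
          have e2 : Z.act γ⁻¹ (Z.act γ c) = c := by
            rw [← AlgEquiv.mul_apply, ← map_mul, inv_mul_cancel, map_one]
            rfl
          rw [e1, map_smul] at e2
          conv_rhs => rw [← e2]
          rw [smul_smul, ← mul_pow, map_inv χ, Units.val_inv_eq_inv_val,
            inv_mul_cancel₀ (Units.ne_zero _), one_pow, one_smul] }
    have hle : Δ ≤ Δ' := fun γ hγ => hc γ hγ
    have hΔ' : Δ'.FiniteIndex := Subgroup.finiteIndex_of_le hle
    have h2 := h1 Δ' hΔ' fun i _ => by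
      change Z.act (g i) c = (χ (g i) : W.K) ^ j • c
      rw [h.triv_base i c, h.twist i, Units.val_one, one_pow, one_smul]
    exact h.conv hY (tc_of_tateOver h2) j c hcj fun γ hγ => hγ
  · intro hZ Δ hΔ hL
    exact tateOver_of_tc hG (h.tc hZ hY Δ hΔ hL)

end Pool.Agent.Y127
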