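import Mathlib

/-!
# The operator `(n - 1) |S| + ∑ (a b)` on functions `(S → J) → ℚ`

It is positive semidefinite, and its kernel is zero if `|S| ≠ 0, n`, and consists of the alternating
functions supported on the bijections if `|S| = n`, `n = |J|`.
-/

open Finset Function

namespace Pool.Agent.Y127

variable {S J : Type} [Fintype S] [DecidableEq S] [Fintype J] [DecidableEq J]

/-- The operator. -/
def opA {M : Type*} [AddCommGroup M] (f : (S → J) → M) : (S → J) → M := fun x =>
  (((Fintype.card J : ℤ) - 1) * Fintype.card S) • f x +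
    ∑ a, ∑ b ∈ univ.erase a, f (x ∘ Equiv.swap a b)

/-- The matrix unit `E_{p q}` acting on functions. -/
def opD (p q : J) (v : (S → J) → ℚ) : (S → J) → ℚ := fun x =>
  ∑ a, if x a = p then v (update x a q) else 0

theorem sum_update {M : Type*} [AddCommMonoid M] (a : S) (p q : J) (F : (S → J) → (S → J) → M) :
    ∑ x : S → J, (if x a = p then F x (update x a q) else 0) =
      ∑ y : S → J, (if y a = q then F (update y a p) y else 0) := by
  rw [← Finset.sum_filter, ← Finset.sum_filter]
  refine Finset.sum_bij' (fun x _ => update x a q) (fun y _ => update y a p) ?_ ?_ ?_ ?_ ?_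
  · intro x hx
    simp
  · intro y hy
    simp
  · intro x hx
    have h := (Finset.mem_filter.1 hx).2
    rw [update_idem, ← h, update_eq_self]
  · intro y hy
    have h := (Finset.mem_filter.1 hy).2
    rw [update_idem, ← h, update_eq_self]
  · intro x hx
    have h := (Finset.mem_filter.1 hx).2
    rw [update_idem, ← h, update_eq_self]

/-- adjointness -/
theorem opD_adj (p q : J) (v w : (S → J) → ℚ) :
    ∑ x, w x * opD p q v x = ∑ x, opD q p w x * v x := by
  unfold opD
  simp only [Finset.mul_sum, Finset.sum_mul]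
  rw [Finset.sum_comm, Finset.sum_comm (γ := S → J)]
  refine Finset.sum_congr rfl fun a _ => ?_
  have h := sum_update a p q (fun x y => w x * v y)
  simp only [mul_ite, mul_zero, ite_mul, zero_mul]
  exact h

theorem swap_eq_update (x : S → J) (a b : S) :
    x ∘ Equiv.swap a b = update (update x a (x b)) b (x a) := by
  funext c
  by_cases hb : c = b
  · subst hb
    simp
  · rw [update_of_ne hb]
    by_cases ha : c = a
    · subst ha
      simp
    · rw [update_of_ne ha, Function.comp_apply, Equiv.swap_apply_of_ne_of_ne ha hb]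

/-- the Casimir operator of the general linear group -/
theorem sum_opD (v : (S → J) → ℚ) (x : S → J) :
    ∑ p, ∑ q, opD q p (opD p q v) x = opA v x + Fintype.card S * v x := by
  have h1 : ∀ p q, opD q p (opD p q v) x = ∑ a, ∑ b, if x a = q then
      (if update x a p b = p then v (update (update x a p) b q) else 0) else 0 := by
    intro p q
    unfold opD
    refine Finset.sum_congr rfl fun a _ => ?_
    split_ifs with h
    · rfl
    · simp
  have h2 : ∀ a, ∑ p, ∑ q, ∑ b, (if x a = q then
      (if update x a p b = p then v (update (update x a p) b q) else 0) else 0) =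
      Fintype.card J * v x + ∑ b ∈ univ.erase a, v (x ∘ Equiv.swap a b) := by
    intro a
    have h3 : ∀ p, ∑ q, ∑ b, (if x a = q then
        (if update x a p b = p then v (update (update x a p) b q) else 0) else 0) =
        v x + ∑ b ∈ univ.erase a, (if x b = p then v (x ∘ Equiv.swap a b) else 0) := by
      intro p
      rw [Finset.sum_comm, ← Finset.add_sum_erase univ _ (Finset.mem_univ a)]
      congr 1
      · rw [Finset.sum_ite_eq, if_pos (Finset.mem_univ _), update_self, if_pos rfl, update_idem,
          update_eq_self]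
      · refine Finset.sum_congr rfl fun b hb => ?_
        rw [Finset.sum_ite_eq, if_pos (Finset.mem_univ _), update_of_ne (Finset.ne_of_mem_erase hb)]
        split_ifs with h
        · rw [swap_eq_update, h]
        · rfl
    rw [Finset.sum_congr rfl fun p _ => h3 p, Finset.sum_add_distrib, Finset.sum_const,
      Finset.card_univ, nsmul_eq_mul, Finset.sum_comm]
    congr 1
    refine Finset.sum_congr rfl fun b _ => ?_
    rw [Finset.sum_ite_eq, if_pos (Finset.mem_univ _)]
  simp only [h1]
  have h4 : ∑ p, ∑ q, ∑ a, ∑ b, (if x a = q then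
      (if update x a p b = p then v (update (update x a p) b q) else 0) else 0) =
      ∑ a, ∑ p, ∑ q, ∑ b, (if x a = q then
      (if update x a p b = p then v (update (update x a p) b q) else 0) else 0) := by
    rw [Finset.sum_comm]
    conv_rhs => rw [Finset.sum_comm]
    rw [Finset.sum_comm]
    refine Finset.sum_congr rfl fun p _ => ?_
    rw [Finset.sum_comm]
  rw [h4, Finset.sum_congr rfl fun a _ => h2 a, Finset.sum_add_distrib, Finset.sum_const,
    Finset.card_univ]
  unfold opA
  simp only [zsmul_eq_mul, nsmul_eq_mul]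
  push_cast
  ring

/-- the number of occurrences -/
def occ (x : S → J) (p : J) : ℕ := (univ.filter fun a => x a = p).card

theorem sum_occ (x : S → J) : ∑ p, occ x p = Fintype.card S := by
  unfold occ
  rw [← Finset.card_univ]
  exact (Finset.card_eq_sum_card_fiberwise (f := x) (t := univ) (fun a _ => Finset.mem_univ _)).symm

theorem opD_self (p : J) (v : (S → J) → ℚ) (x : S → J) : opD p p v x = occ x p * v x := by
  unfold opD occ
  have h : ∀ a, (if x a = p then v (update x a p) else 0) = if x a = p then v x else 0 := by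
    intro a
    split_ifs with h
    · rw [← h, update_eq_self]
    · rfl
  rw [Finset.sum_congr rfl fun a _ => h a, ← Finset.sum_filter, Finset.sum_const, nsmul_eq_mul]

/-- the sum of squares -/
theorem opA_form (v : (S → J) → ℚ) :
    ∑ x, v x * opA v x = (∑ x, (∑ p, ((occ x p : ℚ) ^ 2 - occ x p)) * v x ^ 2) +
      ∑ p, ∑ q ∈ univ.erase p, ∑ x, opD p q v x ^ 2 := by
  have h1 : ∑ x, v x * opA v x = ∑ x, v x * (∑ p, ∑ q, opD q p (opD p q v) x) -
      ∑ x, (Fintype.card S : ℚ) * v x ^ 2 := by
    rw [← Finset.sum_sub_distrib]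
    refine Finset.sum_congr rfl fun x _ => ?_
    rw [sum_opD]
    ring
  have h2 : ∑ x, v x * (∑ p, ∑ q, opD q p (opD p q v) x) =
      ∑ p, ∑ q, ∑ x, opD p q v x ^ 2 := by
    simp only [Finset.mul_sum]
    rw [Finset.sum_comm]
    refine Finset.sum_congr rfl fun p _ => ?_
    rw [Finset.sum_comm]
    refine Finset.sum_congr rfl fun q _ => ?_
    rw [opD_adj]
    refine Finset.sum_congr rfl fun x _ => ?_
    ring
  have h3 : ∑ p, ∑ q, ∑ x, opD p q v x ^ 2 = (∑ p, ∑ x, ((occ x p : ℚ) ^ 2) * v x ^ 2) +
      ∑ p, ∑ q ∈ univ.erase p, ∑ x, opD p q v x ^ 2 := by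
    rw [← Finset.sum_add_distrib]
    refine Finset.sum_congr rfl fun p _ => ?_
    rw [← Finset.add_sum_erase univ _ (Finset.mem_univ p)]
    congr 1
    refine Finset.sum_congr rfl fun x _ => ?_
    rw [opD_self]
    ring
  rw [h1, h2, h3, add_sub_right_comm]
  congr 1
  rw [Finset.sum_comm, ← Finset.sum_sub_distrib]
  refine Finset.sum_congr rfl fun x _ => ?_
  rw [← Finset.sum_mul, ← sub_mul, Finset.sum_sub_distrib]
  congr 2
  have h4 := sum_occ x
  exact_mod_cast h4.symm

theorem occ_nonneg (n : ℕ) : (0 : ℚ) ≤ (n : ℚ) ^ 2 - n := by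
  rcases Nat.eq_zero_or_pos n with h | h
  · subst h
    norm_num
  · have h1 : (1 : ℚ) ≤ n := by exact_mod_cast h
    nlinarith

/-- the kernel of the form -/
theorem form_zero {v : (S → J) → ℚ} (h : ∑ x, v x * opA v x = 0) :
    (∀ x, v x ≠ 0 → Injective x) ∧ ∀ p q, p ≠ q → ∀ x, opD p q v x = 0 := by
  rw [opA_form] at h
  have h1 : 0 ≤ ∑ x, (∑ p, ((occ x p : ℚ) ^ 2 - occ x p)) * v x ^ 2 :=
    Finset.sum_nonneg fun x _ => mul_nonneg (Finset.sum_nonneg fun p _ => occ_nonneg _)
      (sq_nonneg _)
  have h2 : 0 ≤ ∑ p, ∑ q ∈ univ.erase p, ∑ x, opD p q v x ^ 2 :=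
    Finset.sum_nonneg fun p _ => Finset.sum_nonneg fun q _ => Finset.sum_nonneg fun x _ =>
      sq_nonneg _
  have h3 : ∑ x, (∑ p, ((occ x p : ℚ) ^ 2 - occ x p)) * v x ^ 2 = 0 := by linarith
  have h4 : ∑ p, ∑ q ∈ univ.erase p, ∑ x, opD p q v x ^ 2 = 0 := by linarith
  constructor
  · intro x hx
    have h5 := (Finset.sum_eq_zero_iff_of_nonneg fun x _ => mul_nonneg (Finset.sum_nonneg
      fun p _ => occ_nonneg _) (sq_nonneg _)).1 h3 x (Finset.mem_univ _)
    have h6 : ∑ p, ((occ x p : ℚ) ^ 2 - occ x p) = 0 := by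
      rcases mul_eq_zero.1 h5 with h6 | h6
      · exact h6
      · exact absurd (pow_eq_zero_iff (two_ne_zero)|>.1 h6) hx
    intro a b hab
    by_contra hne
    have h7 := (Finset.sum_eq_zero_iff_of_nonneg fun p _ => occ_nonneg _).1 h6 (x a)
      (Finset.mem_univ _)
    have h8 : 2 ≤ occ x (x a) := by
      unfold occ
      have h9 : ({a, b} : Finset S) ⊆ univ.filter fun c => x c = x a := by
        intro c hc
        rw [Finset.mem_insert, Finset.mem_singleton] at hc
        rw [Finset.mem_filter]
        rcases hc with rfl | rfl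
        · exact ⟨Finset.mem_univ _, rfl⟩
        · exact ⟨Finset.mem_univ _, hab.symm⟩
      have h10 := Finset.card_le_card h9
      rwa [Finset.card_pair hne] at h10
    have h9 : (2 : ℚ) ≤ occ x (x a) := by exact_mod_cast h8
    nlinarith
  · intro p q hpq x
    have h5 := (Finset.sum_eq_zero_iff_of_nonneg fun p _ => Finset.sum_nonneg fun q _ =>
      Finset.sum_nonneg fun x _ => sq_nonneg _).1 h4 p (Finset.mem_univ _)
    have h6 := (Finset.sum_eq_zero_iff_of_nonneg fun q _ =>
      Finset.sum_nonneg fun x _ => sq_nonneg _).1 h5 q (Finset.mem_erase.2 ⟨hpq.symm, Finset.mem_univ _⟩)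
    have h7 := (Finset.sum_eq_zero_iff_of_nonneg fun x _ => sq_nonneg _).1 h6 x
      (Finset.mem_univ _)
    exact pow_eq_zero_iff (two_ne_zero)|>.1 h7

/-- The kernel, for `0 < |S| ≠ |J|`. -/
theorem ker_eq_zero (h0 : 0 < Fintype.card S) (hn : Fintype.card S ≠ Fintype.card J)
    {v : (S → J) → ℚ} (h : ∑ x, v x * opA v x = 0) : v = 0 := by
  obtain ⟨h1, h2⟩ := form_zero h
  funext x
  by_contra hx
  have hinj := h1 x hx
  have hle : Fintype.card S ≤ Fintype.card J := Fintype.card_le_of_injective x hinj
  obtain ⟨a0⟩ : Nonempty S := Fintype.card_pos_iff.1 h0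
  obtain ⟨q, hq⟩ : ∃ q, q ∉ Set.range x := by
    by_contra hcon
    push Not at hcon
    have hsur : Surjective x := hcon
    exact hn (le_antisymm hle (Fintype.card_le_of_surjective x hsur))
  have hne : q ≠ x a0 := fun h => hq ⟨a0, h.symm⟩
  have h3 := h2 q (x a0) hne (update x a0 q)
  unfold opD at h3
  rw [Finset.sum_eq_single a0] at h3
  · rw [update_self, if_pos rfl, update_idem, update_eq_self] at h3
    exact hx h3
  · intro a _ ha
    rw [update_of_ne ha, if_neg]
    exact fun h => hq ⟨a, h⟩
  · intro h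
    exact absurd (Finset.mem_univ _) h

/-- The kernel, for `|S| = |J|`. -/
theorem ker_alt (hn : Fintype.card S = Fintype.card J) {v : (S → J) → ℚ}
    (h : ∑ x, v x * opA v x = 0) :
    (∀ x, ¬ Bijective x → v x = 0) ∧ ∀ x a b, a ≠ b → v (x ∘ Equiv.swap a b) = -v x := by
  obtain ⟨h1, h2⟩ := form_zero h
  have h3 : ∀ x, ¬ Bijective x → v x = 0 := by
    intro x hx
    by_contra hv
    exact hx ((Fintype.bijective_iff_injective_and_card x).2 ⟨h1 x hv, hn⟩)
  refine ⟨h3, fun x a b hab => ?_⟩
  by_cases hx : Bijective x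
  · have hne : x b ≠ x a := fun h => hab (hx.1 h).symm
    have h4 := h2 (x b) (x a) hne (update x a (x b))
    unfold opD at h4
    rw [← Finset.add_sum_erase univ _ (Finset.mem_univ a), update_self, if_pos rfl, update_idem,
      update_eq_self, ← Finset.add_sum_erase _ _ (Finset.mem_erase.2 ⟨hab.symm, Finset.mem_univ b⟩),
      update_of_ne hab.symm, if_pos rfl, Finset.sum_eq_zero, add_zero] at h4
    · rw [swap_eq_update]
      linarith
    · intro c hc
      rw [Finset.mem_erase, Finset.mem_erase] at hc
      rw [update_of_ne hc.2.1, if_neg]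
      exact fun h => hc.1 (hx.1 h)
  · have hx' : ¬ Bijective (x ∘ Equiv.swap a b) := by
      intro h
      apply hx
      have h4 := h.comp (Equiv.swap a b).bijective
      have h5 : (x ∘ Equiv.swap a b) ∘ Equiv.swap a b = x := by
        funext c
        simp
      rwa [h5] at h4
    rw [h3 x hx, h3 _ hx', neg_zero]

end Pool.Agent.Y127
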